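import Pool.Agent.U962.TU.Param

/-! The maps satisfying the conditions correspond to the parameters. -/

set_option autoImplicit false

namespace Pool.Agent.U962.TU

open Polynomial Module Pool.Agent.Helper9.TD Pool.Agent.R841.TD

variable {K : Type*} [Field K] {V : Type*} [AddCommGroup V] [Module K V]

/-- families of linear maps `L_j → L'_j`, `j < n` -/
abbrev FFam (L L' : ℕ → Submodule K V) (n : ℕ) : Type _ := ∀ j : Fin n, L j →ₗ[K] L' j

/-- the family extended by zero to all `j` -/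
def ext0 {L L' : ℕ → Submodule K V} {n : ℕ} (f : FFam L L' n) : Fam L L' :=
  fun j => if hj : j < n then f ⟨j, hj⟩ else 0

theorem ext0_of_lt {L L' : ℕ → Submodule K V} {n : ℕ} (f : FFam L L' n) (j : ℕ) (hj : j < n) :
    ext0 f j = f ⟨j, hj⟩ := dif_pos hj

theorem ext0_of_ge {L L' : ℕ → Submodule K V} {n : ℕ} (f : FFam L L' n) (j : ℕ) (hj : ¬ j < n) :
    ext0 f j = 0 := dif_neg hj

theorem ext0_add {L L' : ℕ → Submodule K V} {n : ℕ} (f f' : FFam L L' n) (j : ℕ) :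
    ext0 (f + f') j = ext0 f j + ext0 f' j := by
  unfold ext0
  split_ifs
  · rfl
  · rw [add_zero]

theorem ext0_smul {L L' : ℕ → Submodule K V} {n : ℕ} (s : K) (f : FFam L L' n) (j : ℕ) :
    ext0 (s • f) j = s • ext0 f j := by
  unfold ext0
  split_ifs
  · rfl
  · rw [smul_zero]

theorem ext0_inj {L L' : ℕ → Submodule K V} {n : ℕ} (f : FFam L L' n)
    (h : ∀ j, j < n → ext0 f j = 0) : f = 0 := by
  funext j
  have h1 := h j j.2
  rw [ext0_of_lt f j j.2] at h1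
  exact h1

/-- the parameters, as a product -/
abbrev UPar (L : ℕ → Submodule K V) (d : ℕ) : Type _ :=
  (FFam L L (d / 2 + 1) × FFam L L (d / 2) × FFam L L ((d + 1) / 2) × FFam L L ((d + 1) / 2)) ×
  (FFam L (fun j => L (j + 1)) (d / 2) × FFam L (fun j => L (j + 1)) ((d - 1) / 2) ×
    FFam L (fun j => L (j + 1)) (d / 2)) ×
  (FFam (fun j => L (j + 1)) L (d / 2) × FFam (fun j => L (j + 1)) L (d / 2) ×
    FFam (fun j => L (j + 1)) L ((d - 1) / 2)) ×
  (FFam L (fun j => L (j + 2)) ((d - 2) / 2) × FFam (fun j => L (j + 2)) L ((d - 2) / 2))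

variable {A B : Module.End K V} {d : ℕ} {a b : ℕ → K} {P Q : ℕ → Module.End K V}
  {X X' Y Y' X0 X1 X2 : Module.End K V}

variable {e e2 f f1 f2 : ∀ j, LW d P Q j →ₗ[K] LW d P Q j}
  {g g1 g2 : ∀ j, LW d P Q j →ₗ[K] LW d P Q (j + 1)}
  {z z1 z2 : ∀ j, LW d P Q (j + 1) →ₗ[K] LW d P Q j}
  {p p1 p2 : ∀ j, LW d P Q j →ₗ[K] LW d P Q (j + 2)}
  {r r1 r2 : ∀ j, LW d P Q (j + 2) →ₗ[K] LW d P Q j}

theorem Fml.add {β : K} (hX : Fml A d a P Q β f g z X) (hX' : Fml A d a P Q β f1 g1 z1 X')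
    (hf : ∀ j, f2 j = f j + f1 j) (hg : ∀ j, g2 j = g j + g1 j) (hz : ∀ j, z2 j = z j + z1 j) :
    Fml A d a P Q β f2 g2 z2 (X + X') := by
  intro j s hjs q
  have hzV : zV z2 j q = zV z j q + zV z1 j q := by
    rcases j with _ | j
    · exact (add_zero _).symm
    · show ((z2 j q : LW d P Q j) : V) = (z j q : V) + (z1 j q : V)
      rw [hz j]
      rfl
  rw [LinearMap.add_apply, hX j s hjs q, hX' j s hjs q, hf, hg, hzV]
  simp only [LinearMap.add_apply, Submodule.coe_add, map_add, smul_add]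
  abel

theorem Fml.smul {β : K} (t : K) (hX : Fml A d a P Q β f g z X)
    (hf : ∀ j, f2 j = t • f j) (hg : ∀ j, g2 j = t • g j) (hz : ∀ j, z2 j = t • z j) :
    Fml A d a P Q β f2 g2 z2 (t • X) := by
  intro j s hjs q
  have hzV : zV z2 j q = t • zV z j q := by
    rcases j with _ | j
    · exact (smul_zero _).symm
    · show ((z2 j q : LW d P Q j) : V) = t • (z j q : V)
      rw [hz j]
      rfl
  rw [LinearMap.smul_apply, hX j s hjs q, hf, hg, hzV]
  simp only [LinearMap.smul_apply, Submodule.coe_smul, map_smul, smul_add]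
  rw [smul_comm t, smul_comm t (TT β (s - 1)), smul_comm t (TT β (d + 1 - 2 * j - s))]

theorem FY.add {β : K} (hY : FY A d a P Q β e f p r Y) (hY' : FY A d a P Q β e2 f1 p1 r1 Y')
    {e3 f3 : ∀ j, LW d P Q j →ₗ[K] LW d P Q j}
    (he : ∀ j, e3 j = e j + e2 j) (hf : ∀ j, f3 j = f j + f1 j) (hp : ∀ j, p2 j = p j + p1 j)
    (hr : ∀ j, r2 j = r j + r1 j) : FY A d a P Q β e3 f3 p2 r2 (Y + Y') := by
  intro j s hjs q
  have hrV : rV r2 j q = rV r j q + rV r1 j q := by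
    rcases j with _ | _ | j
    · exact (add_zero _).symm
    · exact (add_zero _).symm
    · show ((r2 j q : LW d P Q j) : V) = (r j q : V) + (r1 j q : V)
      rw [hr j]
      rfl
  rw [LinearMap.add_apply, hY j s hjs q, hY' j s hjs q, he, hf, hp, hrV]
  simp only [LinearMap.add_apply, Submodule.coe_add, map_add, smul_add]
  abel

theorem FY.smul {β : K} (t : K) (hY : FY A d a P Q β e f p r Y)
    {e3 f3 : ∀ j, LW d P Q j →ₗ[K] LW d P Q j}
    (he : ∀ j, e3 j = t • e j) (hf : ∀ j, f3 j = t • f j) (hp : ∀ j, p2 j = t • p j)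
    (hr : ∀ j, r2 j = t • r j) : FY A d a P Q β e3 f3 p2 r2 (t • Y) := by
  intro j s hjs q
  have hrV : rV r2 j q = t • rV r j q := by
    rcases j with _ | _ | j
    · exact (smul_zero _).symm
    · exact (smul_zero _).symm
    · show ((r2 j q : LW d P Q j) : V) = t • (r j q : V)
      rw [hr j]
      rfl
  rw [LinearMap.smul_apply, hY j s hjs q, he, hf, hp, hrV]
  simp only [LinearMap.smul_apply, Submodule.coe_smul, map_smul, smul_add]
  rw [smul_comm t (TT β (s - 1)), smul_comm t (TT β (s - 1)),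
    smul_comm t (TT β (d + 1 - 2 * j - s))]

/-- `X` is the map with parameters `p` -/
def IsMapL (A : Module.End K V) (d : ℕ) (a : ℕ → K) (P Q : ℕ → Module.End K V) (β : K)
    (p : UPar (LW d P Q) d) (X : Module.End K V) : Prop :=
  ∃ Y X0 X1 X2 : Module.End K V,
    FY A d a P Q β (ext0 p.1.1) (ext0 p.1.2.1) (ext0 p.2.2.2.1) (ext0 p.2.2.2.2) Y ∧
    Fml A d a P Q β (ext0 p.1.2.2.1) (ext0 p.2.1.1) (ext0 p.2.2.1.1) X0 ∧
    Fml A d a P Q β (ext0 p.1.2.2.2) (ext0 p.2.1.2.1) (ext0 p.2.2.1.2.1) X1 ∧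
    Fml A d a P Q β (fun _ => 0) (ext0 p.2.1.2.2) (ext0 p.2.2.1.2.2) X2 ∧
    X = Y + X0 + A * X1 + X2 * A

theorem IsMapL.exists (h : Sys A B d a P d b Q) (β : K) (p : UPar (LW d P Q) d) :
    ∃ X, IsMapL A d a P Q β p X := by
  obtain ⟨Y, hY⟩ := FY.exists h β (ext0 p.1.1) (ext0 p.1.2.1) (ext0 p.2.2.2.1) (ext0 p.2.2.2.2)
  obtain ⟨X0, h0⟩ := Sys.exists_X h β (ext0 p.1.2.2.1) (ext0 p.2.1.1) (ext0 p.2.2.1.1)
  obtain ⟨X1, h1⟩ := Sys.exists_X h β (ext0 p.1.2.2.2) (ext0 p.2.1.2.1) (ext0 p.2.2.1.2.1)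
  obtain ⟨X2, h2⟩ := Sys.exists_X h β (fun _ => 0) (ext0 p.2.1.2.2) (ext0 p.2.2.1.2.2)
  exact ⟨_, Y, X0, X1, X2, hY, h0, h1, h2, rfl⟩

theorem IsMapL.unique (h : Sys A B d a P d b Q) (β : K) (p : UPar (LW d P Q) d)
    (hX : IsMapL A d a P Q β p X) (hX' : IsMapL A d a P Q β p X') : X = X' := by
  obtain ⟨Y, X0, X1, X2, hY, h0, h1, h2, rfl⟩ := hX
  obtain ⟨Y', X0', X1', X2', hY', h0', h1', h2', rfl⟩ := hX'
  have e1 : Y = Y' := Sys.map_ext h _ _ fun j s hjs q hq =>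
    (hY j s hjs ⟨q, hq⟩).trans (hY' j s hjs ⟨q, hq⟩).symm
  have e2 : X0 = X0' := Sys.map_ext h _ _ fun j s hjs q hq =>
    (h0 j s hjs ⟨q, hq⟩).trans (h0' j s hjs ⟨q, hq⟩).symm
  have e3 : X1 = X1' := Sys.map_ext h _ _ fun j s hjs q hq =>
    (h1 j s hjs ⟨q, hq⟩).trans (h1' j s hjs ⟨q, hq⟩).symm
  have e4 : X2 = X2' := Sys.map_ext h _ _ fun j s hjs q hq =>
    (h2 j s hjs ⟨q, hq⟩).trans (h2' j s hjs ⟨q, hq⟩).symm
  rw [e1, e2, e3, e4]

theorem IsMapL.WL (h : Sys A B d a P d b Q) (β : K)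
    (hrec : ∀ i, i + 3 ≤ d → a i - a (i + 3) = (β + 1) * (a (i + 1) - a (i + 2)))
    (p : UPar (LW d P Q) d) (hX : IsMapL A d a P Q β p X) : WL d P Q X := by
  obtain ⟨Y, X0, X1, X2, hY, h0, h1, h2, rfl⟩ := hX
  exact (((hY.shape.WL h β hrec).add (WL.of_SL (Fml.SL h β hrec _ _ _ h0))).add
    (WL.mul_left h (Fml.SL h β hrec _ _ _ h1))).add (WL.mul_right h (Fml.SL h β hrec _ _ _ h2))

theorem IsMapL.add {β : K} {p p' : UPar (LW d P Q) d} (hX : IsMapL A d a P Q β p X)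
    (hX' : IsMapL A d a P Q β p' X') : IsMapL A d a P Q β (p + p') (X + X') := by
  obtain ⟨Y, X0, X1, X2, hY, h0, h1, h2, rfl⟩ := hX
  obtain ⟨Y', X0', X1', X2', hY', h0', h1', h2', rfl⟩ := hX'
  refine ⟨Y + Y', X0 + X0', X1 + X1', X2 + X2',
    FY.add hY hY' (fun j => ext0_add _ _ j) (fun j => ext0_add _ _ j) (fun j => ext0_add _ _ j)
      (fun j => ext0_add _ _ j),
    Fml.add h0 h0' (fun j => ext0_add _ _ j) (fun j => ext0_add _ _ j) (fun j => ext0_add _ _ j),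
    Fml.add h1 h1' (fun j => ext0_add _ _ j) (fun j => ext0_add _ _ j) (fun j => ext0_add _ _ j),
    Fml.add h2 h2' (fun j => (add_zero _).symm) (fun j => ext0_add _ _ j)
      (fun j => ext0_add _ _ j), ?_⟩
  rw [mul_add, add_mul]
  abel

theorem IsMapL.smul {β : K} {p : UPar (LW d P Q) d} (t : K) (hX : IsMapL A d a P Q β p X) :
    IsMapL A d a P Q β (t • p) (t • X) := by
  obtain ⟨Y, X0, X1, X2, hY, h0, h1, h2, rfl⟩ := hX
  refine ⟨t • Y, t • X0, t • X1, t • X2,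
    FY.smul t hY (fun j => ext0_smul _ _ j) (fun j => ext0_smul _ _ j) (fun j => ext0_smul _ _ j)
      (fun j => ext0_smul _ _ j),
    Fml.smul t h0 (fun j => ext0_smul _ _ j) (fun j => ext0_smul _ _ j) (fun j => ext0_smul _ _ j),
    Fml.smul t h1 (fun j => ext0_smul _ _ j) (fun j => ext0_smul _ _ j) (fun j => ext0_smul _ _ j),
    Fml.smul t h2 (fun j => (smul_zero _).symm) (fun j => ext0_smul _ _ j)
      (fun j => ext0_smul _ _ j), ?_⟩
  rw [mul_smul_comm, smul_mul_assoc, smul_add, smul_add, smul_add]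

theorem smul_eq_zero_of_ne {t : K} {v : V} (ht : t ≠ 0) (h : t • v = 0) : v = 0 :=
  (smul_eq_zero.mp h).resolve_left ht

theorem fam_zero {L L' : ℕ → Submodule K V} {n : ℕ} (f : FFam L L' n)
    (h : ∀ j, j < n → ∀ q : L j, (ext0 f j q : V) = 0) : f = 0 :=
  ext0_inj f fun j hj => LinearMap.ext fun q => Subtype.ext (h j hj q)

/-- parameters of the zero map -/
theorem IsMapL.eq_zero (h : Sys A B d a P d b Q) (β : K)
    (hrec : ∀ i, i + 3 ≤ d → a i - a (i + 3) = (β + 1) * (a (i + 1) - a (i + 2)))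
    (par : UPar (LW d P Q) d) (hX : IsMapL A d a P Q β par 0) : par = 0 := by
  choose c hc using fun j s => Sys.exists_coord h j s
  have hc' : IsCoord A a c := fun j s j' s' hjs q hq => hc j s j' s' hjs q hq
  obtain ⟨Y, X0, X1, X2, hY, h0, h1, h2, h3⟩ := hX
  have hz : ∀ l t v, (c l t ((Y + X0 + A * X1 + X2 * A) v) : V) = 0 := by
    intro l t v
    rw [← h3, LinearMap.zero_apply, map_zero]
    rfl
  have hT : ∀ n, 1 ≤ n → n + 1 ≤ d → TT β n ≠ 0 := by
    intro n hn hnd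
    obtain ⟨m, rfl⟩ : ∃ m, n = m + 1 := ⟨n - 1, by omega⟩
    exact TT_ne_zero d a β h.iA.inj hrec m (by omega)
  have hT1 : TT β 1 = 1 := rfl
  have hT0 : TT β 0 = 0 := rfl
  have hAA : ∀ j, 2 * j + 1 ≤ d → AA d a j (0 + 1) ≠ 0 := by
    intro j hj h4
    rw [AA, Finset.sum_range_one, add_zero, Nat.sub_zero, sub_eq_zero] at h4
    have := h.iA.inj j (by omega) (d - j) (by omega) h4
    omega
  obtain ⟨⟨e, e2, f, f1⟩, ⟨g, g1, g2⟩, ⟨z, z1, z2⟩, ⟨p, r⟩⟩ := par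
  dsimp only at hY h0 h1 h2
  have ze : ∀ j, 2 * j ≤ d → ∀ q, (ext0 e j q : V) = 0 := fun j hj q => by
    rw [← C00 h hc' hY h0 h1 h2 j hj q]
    exact hz _ _ _
  have zr : ∀ j, 2 * (j + 2) ≤ d → ∀ q, (ext0 r j q : V) = 0 := fun j hj q => by
    have h4 := C03 h hc' hY h0 h1 h2 j hj q
    rw [hz] at h4
    exact smul_eq_zero_of_ne (hT _ (by omega) (by omega)) h4.symm
  have zg2 : ∀ j, 2 * j + 2 ≤ d → ∀ q, (ext0 g2 j q : V) = 0 := fun j hj q => by
    rw [← C10 h hc' hY h0 h1 h2 j hj q]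
    exact hz _ _ _
  have zp : ∀ j, 2 * j + 4 ≤ d → ∀ q, (ext0 p j q : V) = 0 := fun j hj q => by
    rw [← C20 h hc' hY h0 h1 h2 j hj q]
    exact hz _ _ _
  have zg1 : ∀ j, 2 * j + 3 ≤ d → ∀ q, (ext0 g1 j q : V) = 0 := fun j hj q => by
    have h4 := C21 h hc' hY h0 h1 h2 j hj q
    rw [hz, zg2 j (by omega), smul_zero, add_zero] at h4
    exact h4.symm
  have zg : ∀ j, 2 * j + 2 ≤ d → ∀ q, (ext0 g j q : V) = 0 := fun j hj q => by
    have h4 := C22 h hc' hY h0 h1 h2 j hj q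
    have h5 : (ext0 g1 j q : V) = 0 := by
      by_cases hd : 2 * j + 3 ≤ d
      · exact zg1 j hd q
      · rw [ext0_of_ge g1 j (by omega)]; rfl
    rw [hz, zg2 j (by omega), smul_zero, add_zero, h5, smul_zero, add_zero] at h4
    exact h4.symm
  have zf1 : ∀ j, 2 * j + 1 ≤ d → ∀ q, (ext0 f1 j q : V) = 0 := fun j hj q => by
    have h4 := C11 h hc' hY h0 h1 h2 j hj q
    rw [hz, ze j (by omega), zero_add] at h4
    exact smul_eq_zero_of_ne (hAA j hj) h4.symm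
  have zf : ∀ j, 2 * j + 1 ≤ d → ∀ q, (ext0 f j q : V) = 0 := fun j hj q => by
    have h4 := C12 h hc' hY h0 h1 h2 j hj q
    rw [hz, zf1 j (by omega), smul_zero, smul_zero, add_zero] at h4
    exact smul_eq_zero_of_ne (hAA j hj) h4.symm
  have ze2 : ∀ j, 2 * j + 2 ≤ d → ∀ q, (ext0 e2 j q : V) = 0 := fun j hj q => by
    have h4 := C23 h hc' hY h0 h1 h2 j hj q
    rw [hz, ze j (by omega), zf1 j (by omega), smul_zero, add_zero, zero_add] at h4
    exact h4.symm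
  have zz12 : ∀ j, 2 * (j + 1) + 1 ≤ d → ∀ q, (ext0 z1 j q : V) = 0 ∧ (ext0 z2 j q : V) = 0 := by
    intro j hj q
    have h4 := C01 h hc' hY h0 h1 h2 j (by omega) q
    have h5 := C13 h hc' hY h0 h1 h2 j hj q
    rw [hz] at h4 h5
    obtain ⟨m, hm⟩ : ∃ m, d + 1 - 2 * (j + 1) = m + 2 := ⟨d + 1 - 2 * (j + 1) - 2, by omega⟩
    rw [hm, show m + 2 - 0 = m + 2 by omega, show m + 2 - 1 = m + 1 by omega] at h4
    rw [hm, show m + 2 - 1 = m + 1 by omega, show m + 2 - 2 = m by omega] at h5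
    have hTI := TT_I β m
    have h6 : (-TT β (m + 1)) • (ext0 z1 j q : V) = 0 := by
      have h7 : (-TT β (m + 1)) • (ext0 z1 j q : V) =
          TT β m • (TT β (m + 2) • (ext0 z1 j q : V) + TT β (m + 1) • (ext0 z2 j q : V)) -
          TT β (m + 1) • (TT β (m + 1) • (ext0 z1 j q : V) + TT β m • (ext0 z2 j q : V)) := by
        have h8 : -TT β (m + 1) = TT β m * TT β (m + 2) - TT β (m + 1) * TT β (m + 1) := by
          linear_combination hTI
        rw [h8]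
        module
      rw [h7, ← h4, ← h5, smul_zero, smul_zero, sub_zero]
    have h9 : (ext0 z1 j q : V) = 0 :=
      smul_eq_zero_of_ne (neg_ne_zero.mpr (hT _ (by omega) (by omega))) h6
    refine ⟨h9, ?_⟩
    rw [h9, smul_zero, zero_add] at h4
    exact smul_eq_zero_of_ne (hT _ (by omega) (by omega)) h4.symm
  have zz2 : ∀ j, 2 * (j + 1) ≤ d → ∀ q, (ext0 z2 j q : V) = 0 := fun j hj q => by
    by_cases hd : 2 * (j + 1) + 1 ≤ d
    · exact (zz12 j hd q).2
    · rw [ext0_of_ge z2 j (by omega)]; rfl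
  have zz1 : ∀ j, 2 * (j + 1) ≤ d → ∀ q, (ext0 z1 j q : V) = 0 := fun j hj q => by
    by_cases hd : 2 * (j + 1) + 1 ≤ d
    · exact (zz12 j hd q).1
    · have h4 := C01 h hc' hY h0 h1 h2 j (by omega) q
      rw [hz, zz2 j hj, smul_zero, add_zero, show d + 1 - 2 * (j + 1) - 0 = 1 by omega, hT1,
        one_smul] at h4
      exact h4.symm
  have zz : ∀ j, 2 * (j + 1) ≤ d → ∀ q, (ext0 z j q : V) = 0 := fun j hj q => by
    have h4 := C02 h hc' hY h0 h1 h2 j (by omega) q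
    rw [hz, zz2 j hj, zz1 j hj, smul_zero, smul_zero, smul_zero, add_zero, add_zero] at h4
    exact smul_eq_zero_of_ne (hT _ (by omega) (by omega)) h4.symm
  refine Prod.ext (Prod.ext ?_ (Prod.ext ?_ (Prod.ext ?_ ?_))) (Prod.ext (Prod.ext ?_
    (Prod.ext ?_ ?_)) (Prod.ext (Prod.ext ?_ (Prod.ext ?_ ?_)) (Prod.ext ?_ ?_)))
  · exact fam_zero e fun j hj => ze j (by omega)
  · exact fam_zero e2 fun j hj => ze2 j (by omega)
  · exact fam_zero f fun j hj => zf j (by omega)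
  · exact fam_zero f1 fun j hj => zf1 j (by omega)
  · exact fam_zero g fun j hj => zg j (by omega)
  · exact fam_zero g1 fun j hj => zg1 j (by omega)
  · exact fam_zero g2 fun j hj => zg2 j (by omega)
  · exact fam_zero z fun j hj => zz j (by omega)
  · exact fam_zero z1 fun j hj => zz1 j (by omega)
  · exact fam_zero z2 fun j hj => zz2 j (by omega)
  · exact fam_zero p fun j hj => zp j (by omega)
  · exact fam_zero r fun j hj => zr j (by omega)

end Pool.Agent.U962.TU
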