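import Pool.Agent.U962.TU.Uniq

/-! Coordinates of the maps given by parameters; a map is determined by its values on the bottoms
of the strings. -/

set_option autoImplicit false

namespace Pool.Agent.U962.TU

open Polynomial Module Pool.Agent.Helper9.TD Pool.Agent.R841.TD

variable {K : Type*} [Field K] {V : Type*} [AddCommGroup V] [Module K V]

variable {A B : Module.End K V} {d : ℕ} {a b : ℕ → K} {P Q : ℕ → Module.End K V}
  {X : Module.End K V}

theorem WL.tri' (iA : Idem A d a P) (hX : WL d P Q X) (k : ℕ) (hk : k ≤ d) (w : V)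
    (hw : ∀ i ≤ d, k ≤ i + 1 → i ≤ k + 1 → P i w = 0) : P k (X w) = 0 := by
  rw [← iA.sum w, map_sum, map_sum]
  refine Finset.sum_eq_zero fun l hl => ?_
  have hl' : l ≤ d := by simpa [Nat.lt_succ_iff] using hl
  by_cases h : k ≤ l + 1 ∧ l ≤ k + 1
  · rw [hw l hl' h.1 h.2, map_zero, map_zero]
  · exact hX.tri l hl' k hk (by omega) w

/-- a map with the conditions which vanishes on the bottom of a string vanishes on the string -/
theorem WL.of_bottom (iA : Idem A d a P) (hX : WL d P Q X) (q : V) (n : ℕ)
    (h0 : ∀ t ≤ 2, t ≤ n → X (aeval A (str a 0 t) q) = 0)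
    (p : K[X]) (hp : p.natDegree ≤ n) : X (aeval A p q) = 0 := by
  let L : K[X] →ₗ[K] V := X ∘ₗ (LinearMap.applyₗ q) ∘ₗ (aeval A).toLinearMap
  have hL : ∀ g, L g = X (aeval A g q) := fun g => rfl
  rcases Nat.lt_or_ge n 3 with hn | hn
  · rw [← hL]
    exact lin_zero a 0 L n (fun s hs => by rw [hL]; exact h0 s (by omega) hs) p hp
  · have h2 : ∀ g : K[X], g.natDegree ≤ 2 → X (aeval A g q) = 0 := by
      intro g hg
      rw [← hL]
      exact lin_zero a 0 L 2 (fun s hs => by rw [hL]; exact h0 s hs (by omega)) g hg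
    refine iA.eq_zero _ fun k hk => ?_
    let m : K[X] := (Polynomial.X - C (a (k - 1))) * (Polynomial.X - C (a k)) *
      (Polynomial.X - C (a (k + 1)))
    have hm : m.Monic := ((monic_X_sub_C _).mul (monic_X_sub_C _)).mul (monic_X_sub_C _)
    have hmd : m.natDegree = 3 := by
      show ((Polynomial.X - C (a (k - 1))) * (Polynomial.X - C (a k)) *
        (Polynomial.X - C (a (k + 1)))).natDegree = 3
      rw [((monic_X_sub_C _).mul (monic_X_sub_C _)).natDegree_mul (monic_X_sub_C _),
        (monic_X_sub_C _).natDegree_mul (monic_X_sub_C _), natDegree_X_sub_C, natDegree_X_sub_C,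
        natDegree_X_sub_C]
    have hdec : p = p %ₘ m + m * (p /ₘ m) := (modByMonic_add_div p m).symm
    have hr : (p %ₘ m).natDegree ≤ 2 := by
      have := natDegree_modByMonic_lt p hm (by
        intro h1
        rw [h1, natDegree_one] at hmd
        omega)
      omega
    rw [hdec, map_add, LinearMap.add_apply, map_add, h2 _ hr, zero_add]
    refine hX.tri' iA k hk _ fun i hi h3 h4 => ?_
    rw [P_aeval iA i hi, eval_mul]
    have h5 : m.eval (a i) = 0 := by
      show ((Polynomial.X - C (a (k - 1))) * (Polynomial.X - C (a k)) *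
        (Polynomial.X - C (a (k + 1)))).eval (a i) = 0
      rw [eval_mul, eval_mul, eval_sub, eval_sub, eval_sub, eval_X, eval_C, eval_C, eval_C]
      have h6 : i = k - 1 ∨ i = k ∨ i = k + 1 := by omega
      rcases h6 with h6 | h6 | h6
      · rw [← h6, sub_self, zero_mul, zero_mul]
      · rw [← h6, sub_self, mul_zero, zero_mul]
      · rw [← h6, sub_self, mul_zero]
    rw [h5, zero_mul, zero_smul]

section coord

variable (c : ∀ j : ℕ, ℕ → (V →ₗ[K] LW d P Q j))

/-- `c` are the coordinates with respect to the strings -/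
def IsCoord (A : Module.End K V) (a : ℕ → K) (c : ∀ j : ℕ, ℕ → (V →ₗ[K] LW d P Q j)) : Prop :=
  ∀ j s j' s', 2 * j' + s' ≤ d → ∀ q ∈ LW d P Q j',
    (c j s (aeval A (str a j' s') q) : V) = if j' = j ∧ s' = s then q else 0

variable {c}

theorem cA (h : Sys A B d a P d b Q) (hc : IsCoord A a c) (l t : ℕ) (hlt : 2 * l + t ≤ d) (v : V) :
    (c l t (A v) : V) = (if t = 0 then 0 else (c l (t - 1) v : V)) + a (l + t) • (c l t v : V) := by
  have h1 : (LW d P Q l).subtype ∘ₗ (c l t) ∘ₗ A =
      (if t = 0 then 0 else (LW d P Q l).subtype ∘ₗ (c l (t - 1))) +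
        a (l + t) • ((LW d P Q l).subtype ∘ₗ (c l t)) := by
    refine Sys.map_ext h _ _ fun j s hjs q hq => ?_
    rw [LinearMap.comp_apply, LinearMap.comp_apply, LinearMap.add_apply, LinearMap.smul_apply,
      LinearMap.comp_apply, Pool.Agent.U50.TDA.A_str, map_add, map_smul, map_add, map_smul]
    simp only [Submodule.subtype_apply]
    rw [hc l t j s hjs q hq]
    have h2 : (c l t (aeval A (str a j (s + 1)) q) : V) = if j = l ∧ s + 1 = t then q else 0 := by
      by_cases hs : 2 * j + (s + 1) ≤ d
      · exact hc l t j (s + 1) hs q hq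
      · have h3 := Pool.Agent.U50.TDA.str_top h.iA j (by omega) q hq
        rw [show d - 2 * j + 1 = s + 1 by omega] at h3
        rw [h3, map_zero, if_neg (by omega)]
        rfl
    rw [h2]
    congr 1
    · by_cases ht : t = 0
      · rw [if_pos ht, if_neg (by omega), LinearMap.zero_apply]
      · rw [if_neg ht, LinearMap.comp_apply, Submodule.subtype_apply, hc l (t - 1) j s hjs q hq]
        by_cases hh : j = l ∧ s + 1 = t
        · rw [if_pos hh, if_pos (by omega)]
        · rw [if_neg hh, if_neg (by omega)]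
    · by_cases hh : j = l ∧ s = t
      · rw [if_pos hh, hh.1, hh.2]
      · rw [if_neg hh, smul_zero, smul_zero]
  have h2 := congrArg (fun f : V →ₗ[K] V => f v) h1
  simp only [LinearMap.comp_apply, LinearMap.add_apply, LinearMap.smul_apply,
    Submodule.subtype_apply] at h2
  rw [h2]
  congr 1
  split_ifs
  · rfl
  · rfl

theorem cL (hc : IsCoord A a c) {β : K} {f : ∀ j, LW d P Q j →ₗ[K] LW d P Q j}
    {g : ∀ j, LW d P Q j →ₗ[K] LW d P Q (j + 1)} {z : ∀ j, LW d P Q (j + 1) →ₗ[K] LW d P Q j}
    (hX : Fml A d a P Q β f g z X) (l t j s : ℕ) (hjs : 2 * j + s ≤ d) (q : LW d P Q j) :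
    (c l t (X (aeval A (str a j s) (q : V))) : V) =
      (if l = j ∧ t + 1 = s then AA d a j s • (f j q : V) else 0) +
      (if l = j + 1 ∧ t + 2 = s then TT β (s - 1) • (g j q : V) else 0) +
      (if l + 1 = j ∧ t = s then TT β (d + 1 - 2 * j - s) • zV z j q else 0) := by
  rw [hX j s hjs q, map_add, map_add, map_smul, map_smul, map_smul, Submodule.coe_add,
    Submodule.coe_add, Submodule.coe_smul, Submodule.coe_smul, Submodule.coe_smul]
  congr 1
  · congr 1
    · rcases s with _ | s
      · rw [AA_zero, zero_smul, if_neg (by omega)]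
      · rw [hc l t j (s + 1 - 1) (by omega) _ (f j q).2]
        by_cases hh : l = j ∧ t + 1 = s + 1
        · rw [if_pos hh, if_pos (by omega)]
        · rw [if_neg hh, if_neg (by omega), smul_zero]
    · rcases Nat.lt_or_ge s 2 with hs | hs
      · have hT : TT β (s - 1) = 0 := by rw [show s - 1 = 0 by omega]; rfl
        rw [hT, zero_smul, zero_smul, ite_self]
      · rw [hc l t (j + 1) (s - 2) (by omega) _ (g j q).2]
        by_cases hh : l = j + 1 ∧ t + 2 = s
        · rw [if_pos hh, if_pos (by omega)]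
        · rw [if_neg hh, if_neg (by omega), smul_zero]
  · rcases j with _ | j
    · have : zV z 0 q = 0 := rfl
      rw [this, map_zero, map_zero, smul_zero]
      simp
    · rw [hc l t (j + 1 - 1) s (by omega) _ (zV_mem z (j + 1) q)]
      by_cases hh : l + 1 = j + 1 ∧ t = s
      · rw [if_pos hh, if_pos (by omega)]
      · rw [if_neg hh, if_neg (by omega), smul_zero]

theorem mul_str (h : Sys A B d a P d b Q) (X : Module.End K V) (j s : ℕ) (hjs : 2 * j + s ≤ d)
    (q : V) (hq : q ∈ LW d P Q j) : X (A (aeval A (str a j s) q)) =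
      (if 2 * j + s + 1 ≤ d then X (aeval A (str a j (s + 1)) q) else 0) +
        a (j + s) • X (aeval A (str a j s) q) := by
  rw [Pool.Agent.U50.TDA.A_str, map_add, map_smul]
  congr 1
  split_ifs with hs
  · rfl
  · have h3 := Pool.Agent.U50.TDA.str_top h.iA j (by omega) q hq
    rw [show d - 2 * j + 1 = s + 1 by omega] at h3
    rw [h3, map_zero]

end coord

end Pool.Agent.U962.TU
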