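import Pool.Agent.U962.TU.Bij

/-! Every map satisfying the conditions has parameters; the dimension. -/

set_option autoImplicit false

namespace Pool.Agent.U962.TU

open Polynomial Module Pool.Agent.Helper9.TD Pool.Agent.R841.TD

variable {K : Type*} [Field K] {V : Type*} [AddCommGroup V] [Module K V]

variable {A B : Module.End K V} {d : ℕ} {a b : ℕ → K} {P Q : ℕ → Module.End K V}
  {X : Module.End K V}

theorem top_eq (s : ℕ) (a a' : ℕ → K) (j j' : ℕ) (q : V)
    (h : ∀ g : K[X], g.natDegree < s → X (aeval A g q) = 0) :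
    X (aeval A (str a j s) q) = X (aeval A (str a' j' s) q) := by
  rcases s with _ | s
  · rw [str_zero, str_zero]
  · rw [← sub_eq_zero, ← map_sub, ← LinearMap.sub_apply, ← map_sub]
    refine h _ ?_
    have h1 : (str a j (s + 1) - str a' j' (s + 1)).degree < (str a j (s + 1)).degree := by
      refine degree_sub_lt_left ?_ (str_monic a j (s + 1)).ne_zero ?_
      · rw [degree_eq_natDegree (str_monic a j (s + 1)).ne_zero,
          degree_eq_natDegree (str_monic a' j' (s + 1)).ne_zero, str_natDegree, str_natDegree]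
      · rw [(str_monic a j (s + 1)).leadingCoeff, (str_monic a' j' (s + 1)).leadingCoeff]
    rw [degree_eq_natDegree (str_monic a j (s + 1)).ne_zero, str_natDegree] at h1
    by_cases h2 : str a j (s + 1) - str a' j' (s + 1) = 0
    · rw [h2, natDegree_zero]; omega
    · rw [degree_eq_natDegree h2] at h1
      exact_mod_cast h1

/-- the position of the image of a string vector -/
theorem position (h : Sys A B d a P d b Q) (hX : WL d P Q X) (j s : ℕ) (hjs : 2 * j + s ≤ d)
    (q : V) (hq : q ∈ LW d P Q j) (h0 : ∀ g : K[X], g.natDegree < s → X (aeval A g q) = 0) :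
    (∀ k ≤ d, j + s < k → Q k (X (aeval A (str a j s) q)) = 0) ∧
    (∀ k ≤ d, k + 1 < j + s → P k (X (aeval A (str a j s) q)) = 0) ∧
    (∀ k ≤ d, d - j + 2 - s ≤ k → P k (X (aeval A (str a j s) q)) = 0) := by
  have hN := Sys.aeval_mem h j s q (Submodule.mem_inf.mp hq).1
  refine ⟨fun k hk hjk => hX.F h.iB (j + s) _ (mem_NN.mp hN).1 k hk hjk, fun k hk hkj =>
    hX.tri' h.iA k hk _ fun i hi h1 h2 => (mem_NN.mp hN).2 i hi (by omega), fun k hk hkj => ?_⟩
  rw [top_eq s a (fun i => a (d - i)) j j q h0]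
  refine hX.tri' h.iA k hk _ fun i hi h1 h2 => ?_
  rw [P_aeval h.iA i hi]
  by_cases hij : d - j < i
  · rw [LW_P hq i hi hij, smul_zero]
  · rw [str_eval, Finset.prod_eq_zero (i := d - i - j) (Finset.mem_range.mpr (by omega)),
      zero_smul]
    rw [show d - (j + (d - i - j)) = i by omega, sub_self]

variable {c : ∀ j : ℕ, ℕ → (V →ₗ[K] LW d P Q j)}

/-- one coordinate of a map -/
noncomputable def K1 (A : Module.End K V) (a : ℕ → K) (c : ∀ j : ℕ, ℕ → (V →ₗ[K] LW d P Q j))
    (l t m u : ℕ) : Module.End K V →ₗ[K] (LW d P Q m →ₗ[K] LW d P Q l) where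
  toFun X := c l t ∘ₗ X ∘ₗ aeval A (str a m u) ∘ₗ (LW d P Q m).subtype
  map_add' X Y := by
    ext q
    simp
  map_smul' t X := by
    ext q
    simp

theorem K1_apply (l t m u : ℕ) (X : Module.End K V) (q : LW d P Q m) :
    K1 A a c l t m u X q = c l t (X (aeval A (str a m u) (q : V))) := rfl

/-- the coordinates of a map -/
noncomputable def phi (A : Module.End K V) (a : ℕ → K) (c : ∀ j : ℕ, ℕ → (V →ₗ[K] LW d P Q j)) :
    Module.End K V →ₗ[K] UPar (LW d P Q) d :=
  LinearMap.prod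
    (LinearMap.prod (LinearMap.pi fun j => K1 A a c j 0 j 0)
      (LinearMap.prod (LinearMap.pi fun j => K1 A a c j 2 j 2)
        (LinearMap.prod (LinearMap.pi fun j => K1 A a c j 0 j 1)
          (LinearMap.pi fun j => K1 A a c j 1 j 1))))
    (LinearMap.prod
      (LinearMap.prod (LinearMap.pi fun j => K1 A a c (j + 1) 0 j 2)
        (LinearMap.prod (LinearMap.pi fun j => K1 A a c (j + 1) 1 j 2)
          (LinearMap.pi fun j => K1 A a c (j + 1) 0 j 1)))
      (LinearMap.prod
        (LinearMap.prod (LinearMap.pi fun j => K1 A a c j 0 (j + 1) 0)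
          (LinearMap.prod (LinearMap.pi fun j => K1 A a c j 1 (j + 1) 0)
            (LinearMap.pi fun j => K1 A a c j 2 (j + 1) 1)))
        (LinearMap.prod (LinearMap.pi fun j => K1 A a c (j + 2) 0 j 2)
          (LinearMap.pi fun j => K1 A a c j 2 (j + 2) 0))))

theorem phi_inj (h : Sys A B d a P d b Q) (hc : IsCoord A a c) (hX : WL d P Q X)
    (h0 : phi A a c X = 0) : X = 0 := by
  have hK : ∀ l t m u, K1 A a c l t m u X = 0 → ∀ q ∈ LW d P Q m,
      (c l t (X (aeval A (str a m u) q)) : V) = 0 := by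
    intro l t m u h1 q hq
    have h2 := congrArg (fun φ : LW d P Q m →ₗ[K] LW d P Q l => (φ ⟨q, hq⟩ : V)) h1
    exact h2
  have k00 : ∀ j, j < d / 2 + 1 → K1 A a c j 0 j 0 X = 0 := fun j hj =>
    congrFun (congrArg (fun x : UPar (LW d P Q) d => x.1.1) h0) ⟨j, hj⟩
  have k22 : ∀ j, j < d / 2 → K1 A a c j 2 j 2 X = 0 := fun j hj =>
    congrFun (congrArg (fun x : UPar (LW d P Q) d => x.1.2.1) h0) ⟨j, hj⟩
  have k01 : ∀ j, j < (d + 1) / 2 → K1 A a c j 0 j 1 X = 0 := fun j hj =>
    congrFun (congrArg (fun x : UPar (LW d P Q) d => x.1.2.2.1) h0) ⟨j, hj⟩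
  have k11 : ∀ j, j < (d + 1) / 2 → K1 A a c j 1 j 1 X = 0 := fun j hj =>
    congrFun (congrArg (fun x : UPar (LW d P Q) d => x.1.2.2.2) h0) ⟨j, hj⟩
  have g02 : ∀ j, j < d / 2 → K1 A a c (j + 1) 0 j 2 X = 0 := fun j hj =>
    congrFun (congrArg (fun x : UPar (LW d P Q) d => x.2.1.1) h0) ⟨j, hj⟩
  have g12 : ∀ j, j < (d - 1) / 2 → K1 A a c (j + 1) 1 j 2 X = 0 := fun j hj =>
    congrFun (congrArg (fun x : UPar (LW d P Q) d => x.2.1.2.1) h0) ⟨j, hj⟩
  have g01 : ∀ j, j < d / 2 → K1 A a c (j + 1) 0 j 1 X = 0 := fun j hj =>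
    congrFun (congrArg (fun x : UPar (LW d P Q) d => x.2.1.2.2) h0) ⟨j, hj⟩
  have z00 : ∀ j, j < d / 2 → K1 A a c j 0 (j + 1) 0 X = 0 := fun j hj =>
    congrFun (congrArg (fun x : UPar (LW d P Q) d => x.2.2.1.1) h0) ⟨j, hj⟩
  have z10 : ∀ j, j < d / 2 → K1 A a c j 1 (j + 1) 0 X = 0 := fun j hj =>
    congrFun (congrArg (fun x : UPar (LW d P Q) d => x.2.2.1.2.1) h0) ⟨j, hj⟩
  have z21 : ∀ j, j < (d - 1) / 2 → K1 A a c j 2 (j + 1) 1 X = 0 := fun j hj =>
    congrFun (congrArg (fun x : UPar (LW d P Q) d => x.2.2.1.2.2) h0) ⟨j, hj⟩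
  have p02 : ∀ j, j < (d - 2) / 2 → K1 A a c (j + 2) 0 j 2 X = 0 := fun j hj =>
    congrFun (congrArg (fun x : UPar (LW d P Q) d => x.2.2.2.1) h0) ⟨j, hj⟩
  have r20 : ∀ j, j < (d - 2) / 2 → K1 A a c j 2 (j + 2) 0 X = 0 := fun j hj =>
    congrFun (congrArg (fun x : UPar (LW d P Q) d => x.2.2.2.2) h0) ⟨j, hj⟩
  -- from strings to polynomials of small degree
  have hpoly : ∀ (q : V) (j n : ℕ), (∀ s ≤ n, X (aeval A (str a j s) q) = 0) →
      ∀ g : K[X], g.natDegree < n + 1 → X (aeval A g q) = 0 := by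
    intro q j n hs g hg
    let L : K[X] →ₗ[K] V := X ∘ₗ (LinearMap.applyₗ q) ∘ₗ (aeval A).toLinearMap
    exact lin_zero a j L n hs g (by omega)
  have s0 : ∀ j, 2 * j ≤ d → ∀ q ∈ LW d P Q j, X (aeval A (str a j 0) q) = 0 := by
    intro j hj q hq
    obtain ⟨h1, h2, h3⟩ := position h hX j 0 (by omega) q hq (fun g hg => by omega)
    refine key_zero h c hc j (d - j + 2) (by omega) (by omega) (by omega) _ h1 h2
      (fun k hk hkj => h3 k hk (by omega)) (fun hj2 => ?_) (fun hj1 hjd => ?_) (fun hj1 => ?_)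
      (fun hjd => ?_)
    · obtain ⟨i, rfl⟩ : ∃ i, j = i + 2 := ⟨j - 2, by omega⟩
      exact hK i 2 (i + 2) 0 (r20 i (by omega)) q hq
    · obtain ⟨i, rfl⟩ : ∃ i, j = i + 1 := ⟨j - 1, by omega⟩
      exact hK i 1 (i + 1) 0 (z10 i (by omega)) q hq
    · obtain ⟨i, rfl⟩ : ∃ i, j = i + 1 := ⟨j - 1, by omega⟩
      exact hK i 0 (i + 1) 0 (z00 i (by omega)) q hq
    · exact hK j 0 j 0 (k00 j (by omega)) q hq
  have s1 : ∀ j, 2 * j + 1 ≤ d → ∀ q ∈ LW d P Q j, X (aeval A (str a j 1) q) = 0 := by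
    intro j hj q hq
    have hp := hpoly q j 0 (fun s hs => by
      obtain rfl : s = 0 := by omega
      exact s0 j (by omega) q hq)
    obtain ⟨h1, h2, h3⟩ := position h hX j 1 (by omega) q hq hp
    refine key_zero h c hc (j + 1) (d - j + 1) (by omega) (by omega) (by omega) _ h1 h2
      (fun k hk hkj => h3 k hk (by omega)) (fun hj2 => ?_) (fun hj1 hjd => ?_) (fun hj1 => ?_)
      (fun hjd => ?_)
    · obtain ⟨i, rfl⟩ : ∃ i, j = i + 1 := ⟨j - 1, by omega⟩
      exact hK i 2 (i + 1) 1 (z21 i (by omega)) q hq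
    · exact hK j 1 j 1 (k11 j (by omega)) q hq
    · exact hK j 0 j 1 (k01 j (by omega)) q hq
    · exact hK (j + 1) 0 j 1 (g01 j (by omega)) q hq
  have s2 : ∀ j, 2 * j + 2 ≤ d → ∀ q ∈ LW d P Q j, X (aeval A (str a j 2) q) = 0 := by
    intro j hj q hq
    have hp := hpoly q j 1 (fun s hs => by
      rcases Nat.lt_or_ge s 1 with h4 | h4
      · obtain rfl : s = 0 := by omega
        exact s0 j (by omega) q hq
      · obtain rfl : s = 1 := by omega
        exact s1 j (by omega) q hq)
    obtain ⟨h1, h2, h3⟩ := position h hX j 2 (by omega) q hq hp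
    refine key_zero h c hc (j + 2) (d - j) (by omega) (by omega) (by omega) _ h1 h2
      (fun k hk hkj => h3 k hk (by omega)) (fun hj2 => ?_) (fun hj1 hjd => ?_) (fun hj1 => ?_)
      (fun hjd => ?_)
    · exact hK j 2 j 2 (k22 j (by omega)) q hq
    · exact hK (j + 1) 1 j 2 (g12 j (by omega)) q hq
    · exact hK (j + 1) 0 j 2 (g02 j (by omega)) q hq
    · exact hK (j + 2) 0 j 2 (p02 j (by omega)) q hq
  refine Sys.map_ext h X 0 fun j s hjs q hq => ?_
  rw [LinearMap.zero_apply]
  have hs : ∀ u ≤ 2, u ≤ d - 2 * j → X (aeval A (str a j u) q) = 0 := by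
    intro u hu hud
    have h5 : u = 0 ∨ u = 1 ∨ u = 2 := by omega
    rcases h5 with rfl | rfl | rfl
    · exact s0 j (by omega) q hq
    · exact s1 j (by omega) q hq
    · exact s2 j (by omega) q hq
  refine WL.of_bottom h.iA hX q (d - 2 * j) (fun t ht htd => ?_) (str a j s)
    (by rw [str_natDegree]; omega)
  refine hpoly q j t (fun u hu => hs u (by omega) (by omega)) _ ?_
  rw [str_natDegree]
  omega

instance ffamFinite [FiniteDimensional K V] (L L' : ℕ → Submodule K V) (n : ℕ) :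
    Module.Finite K (FFam L L' n) :=
  Module.Finite.pi

instance uparFinite [FiniteDimensional K V] (L : ℕ → Submodule K V) (d : ℕ) :
    Module.Finite K (UPar L d) := by
  have h1 : ∀ (L L' : ℕ → Submodule K V) (n : ℕ), Module.Finite K (FFam L L' n) :=
    fun L L' n => ffamFinite L L' n
  have h2 : Module.Finite K (FFam L L (d / 2 + 1) × FFam L L (d / 2) × FFam L L ((d + 1) / 2) ×
    FFam L L ((d + 1) / 2)) := Module.Finite.prod
  have h3 : Module.Finite K (FFam L (fun j => L (j + 1)) (d / 2) ×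
    FFam L (fun j => L (j + 1)) ((d - 1) / 2) × FFam L (fun j => L (j + 1)) (d / 2)) :=
    Module.Finite.prod
  have h4 : Module.Finite K (FFam (fun j => L (j + 1)) L (d / 2) ×
    FFam (fun j => L (j + 1)) L (d / 2) × FFam (fun j => L (j + 1)) L ((d - 1) / 2)) :=
    Module.Finite.prod
  have h5 : Module.Finite K (FFam L (fun j => L (j + 2)) ((d - 2) / 2) ×
    FFam (fun j => L (j + 2)) L ((d - 2) / 2)) := Module.Finite.prod
  have h6 := @Module.Finite.prod K _ _ _ _ _ _ _ h4 h5
  have h7 := @Module.Finite.prod K _ _ _ _ _ _ _ h3 h6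
  exact @Module.Finite.prod K _ _ _ _ _ _ _ h2 h7

/-- The maps satisfying the conditions correspond to the parameters. -/
theorem exists_equiv [FiniteDimensional K V] (h : Sys A B d a P d b Q) (L : ℕ → Submodule K V)
    (hL : L = LW d P Q) (S : Submodule K (Module.End K V)) (hS : ∀ X, X ∈ S ↔ WL d P Q X) (β : K)
    (hrec : ∀ i, i + 3 ≤ d → a i - a (i + 3) = (β + 1) * (a (i + 1) - a (i + 2))) :
    ∃ e : UPar L d ≃ₗ[K] S, ∀ p : UPar L d,
      IsMapL A d a P Q β (hL ▸ p) (e p : Module.End K V) := by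
  subst hL
  have hex : ∀ p : UPar (LW d P Q) d, ∃ X : Module.End K V, X ∈ S ∧ IsMapL A d a P Q β p X := by
    intro p
    obtain ⟨X, hX⟩ := IsMapL.exists h β p
    exact ⟨X, (hS X).mpr (hX.WL h β hrec p), hX⟩
  choose F hFS hF using hex
  let φ : UPar (LW d P Q) d →ₗ[K] S :=
    { toFun := fun p => ⟨F p, hFS p⟩
      map_add' := fun p p' => Subtype.ext
        (IsMapL.unique h β (p + p') (hF (p + p')) ((hF p).add (hF p')))
      map_smul' := fun c p => Subtype.ext
        (IsMapL.unique h β (c • p) (hF (c • p)) ((hF p).smul c)) }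
  have hφ : Function.Injective φ := by
    rw [← LinearMap.ker_eq_bot, LinearMap.ker_eq_bot']
    intro p hp
    have h1 : F p = 0 := congrArg Subtype.val hp
    have h2 := hF p
    rw [h1] at h2
    exact IsMapL.eq_zero h β hrec p h2
  choose c hc using fun j s => Sys.exists_coord h j s
  have hc' : IsCoord A a c := fun j s j' s' hjs q hq => hc j s j' s' hjs q hq
  let ψ : S →ₗ[K] UPar (LW d P Q) d := phi A a c ∘ₗ S.subtype
  have hψ : Function.Injective ψ := by
    rw [← LinearMap.ker_eq_bot, LinearMap.ker_eq_bot']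
    intro x hx
    exact Subtype.ext (phi_inj h hc' ((hS _).mp x.2) hx)
  have hfr : finrank K (UPar (LW d P Q) d) = finrank K S :=
    le_antisymm (LinearMap.finrank_le_finrank_of_injective hφ)
      (LinearMap.finrank_le_finrank_of_injective hψ)
  have hsurj : Function.Surjective φ :=
    (LinearMap.injective_iff_surjective_of_finrank_eq_finrank hfr).mp hφ
  exact ⟨LinearEquiv.ofBijective φ ⟨hφ, hsurj⟩, fun p => hF p⟩

theorem UPar_finrank [FiniteDimensional K V] (L : ℕ → Submodule K V) (d : ℕ) :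
    finrank K (UPar L d) =
      ∑ j ∈ Finset.range (d / 2 + 1), finrank K (L j) ^ 2 +
      2 * ∑ j ∈ Finset.range ((d + 1) / 2), finrank K (L j) ^ 2 +
      ∑ j ∈ Finset.range (d / 2), finrank K (L j) ^ 2 +
      4 * ∑ j ∈ Finset.range (d / 2), finrank K (L j) * finrank K (L (j + 1)) +
      2 * ∑ j ∈ Finset.range ((d - 1) / 2), finrank K (L j) * finrank K (L (j + 1)) +
      2 * ∑ j ∈ Finset.range ((d - 2) / 2), finrank K (L j) * finrank K (L (j + 2)) := by
  have e0 : ∀ n, finrank K (FFam L L n) = ∑ j ∈ Finset.range n, finrank K (L j) ^ 2 := by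
    intro n
    rw [finrank_pi_fintype]
    simp only [finrank_linearMap]
    rw [Finset.sum_range fun j => finrank K (L j) ^ 2]
    exact Finset.sum_congr rfl fun j _ => (sq _).symm
  have e1 : ∀ n, finrank K (FFam L (fun j => L (j + 1)) n) =
      ∑ j ∈ Finset.range n, finrank K (L j) * finrank K (L (j + 1)) := by
    intro n
    rw [finrank_pi_fintype]
    simp only [finrank_linearMap]
    rw [Finset.sum_range fun j => finrank K (L j) * finrank K (L (j + 1))]
  have e1' : ∀ n, finrank K (FFam (fun j => L (j + 1)) L n) =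
      ∑ j ∈ Finset.range n, finrank K (L j) * finrank K (L (j + 1)) := by
    intro n
    rw [finrank_pi_fintype]
    simp only [finrank_linearMap]
    rw [Finset.sum_range fun j => finrank K (L j) * finrank K (L (j + 1))]
    exact Finset.sum_congr rfl fun j _ => mul_comm _ _
  have e2 : ∀ n, finrank K (FFam L (fun j => L (j + 2)) n) =
      ∑ j ∈ Finset.range n, finrank K (L j) * finrank K (L (j + 2)) := by
    intro n
    rw [finrank_pi_fintype]
    simp only [finrank_linearMap]
    rw [Finset.sum_range fun j => finrank K (L j) * finrank K (L (j + 2))]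
  have e2' : ∀ n, finrank K (FFam (fun j => L (j + 2)) L n) =
      ∑ j ∈ Finset.range n, finrank K (L j) * finrank K (L (j + 2)) := by
    intro n
    rw [finrank_pi_fintype]
    simp only [finrank_linearMap]
    rw [Finset.sum_range fun j => finrank K (L j) * finrank K (L (j + 2))]
    exact Finset.sum_congr rfl fun j _ => mul_comm _ _
  rw [finrank_prod, finrank_prod, finrank_prod, finrank_prod, finrank_prod, finrank_prod,
    finrank_prod, finrank_prod, finrank_prod, finrank_prod, finrank_prod, e0, e0, e0, e1, e1, e1',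
    e1', e2, e2']
  ring

end Pool.Agent.U962.TU
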