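import Pool.Agent.U962.TU.Dim

/-! The final form: all maps, their parameters and the dimension. -/

set_option autoImplicit false

namespace Pool.Agent.U962.TU

open Polynomial Module Pool.Agent.Helper9.TD Pool.Agent.R841.TD

variable {K : Type*} [Field K] {V : Type*} [AddCommGroup V] [Module K V]

/-- `X V*_i ⊆ V*_0 + ⋯ + V*_i` and `X V_i ⊆ V_{i-1} + V_i + V_{i+1}` for `0 ≤ i ≤ d`. -/
def IsUpper (A B : Module.End K V) (d : ℕ) (a b : ℕ → K) (X : Module.End K V) : Prop :=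
  (∀ i ≤ d, ∀ v ∈ B.eigenspace (b i), X v ∈ ⨆ (k : ℕ) (_ : k ≤ i), B.eigenspace (b k)) ∧
  (∀ i ≤ d, ∀ v ∈ A.eigenspace (a i),
    X v ∈ ⨆ (k : ℕ) (_ : k ≤ d ∧ k ≤ i + 1 ∧ i ≤ k + 1), A.eigenspace (a k))

/-- The space of the linear maps `X` with `X V*_i ⊆ V*_0 + ⋯ + V*_i` and
`X V_i ⊆ V_{i-1} + V_i + V_{i+1}` for `0 ≤ i ≤ d`. -/
def Upper (A B : Module.End K V) (d : ℕ) (a b : ℕ → K) : Submodule K (Module.End K V) where
  carrier := {X | IsUpper A B d a b X}
  add_mem' := fun h h' =>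
    ⟨fun i hi v hv => Submodule.add_mem _ (h.1 i hi v hv) (h'.1 i hi v hv),
      fun i hi v hv => Submodule.add_mem _ (h.2 i hi v hv) (h'.2 i hi v hv)⟩
  zero_mem' := ⟨fun _ _ _ _ => Submodule.zero_mem _, fun _ _ _ _ => Submodule.zero_mem _⟩
  smul_mem' := fun c _ h => ⟨fun i hi v hv => Submodule.smul_mem _ c (h.1 i hi v hv),
    fun i hi v hv => Submodule.smul_mem _ c (h.2 i hi v hv)⟩

/-- The parameters of a map: families of linear maps
`e_j : L_j → L_j` (`2 j ≤ d`), `e'_j : L_j → L_j` (`2 j + 2 ≤ d`),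
`f_j, f'_j : L_j → L_j` (`2 j + 1 ≤ d`),
`g_j, g''_j : L_j → L_{j+1}` (`2 j + 2 ≤ d`), `g'_j : L_j → L_{j+1}` (`2 j + 3 ≤ d`),
`h_j, h'_j : L_{j+1} → L_j` (`2 j + 2 ≤ d`), `h''_j : L_{j+1} → L_j` (`2 j + 3 ≤ d`),
`p_j : L_j → L_{j+2}` and `r_j : L_{j+2} → L_j` (`2 j + 4 ≤ d`). -/
structure Params (L : ℕ → Submodule K V) (d : ℕ) where
  e : FFam L L (d / 2 + 1)
  e' : FFam L L (d / 2)
  f : FFam L L ((d + 1) / 2)
  f' : FFam L L ((d + 1) / 2)
  g : FFam L (fun j => L (j + 1)) (d / 2)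
  g' : FFam L (fun j => L (j + 1)) ((d - 1) / 2)
  g'' : FFam L (fun j => L (j + 1)) (d / 2)
  h : FFam (fun j => L (j + 1)) L (d / 2)
  h' : FFam (fun j => L (j + 1)) L (d / 2)
  h'' : FFam (fun j => L (j + 1)) L ((d - 1) / 2)
  p : FFam L (fun j => L (j + 2)) ((d - 2) / 2)
  r : FFam (fun j => L (j + 2)) L ((d - 2) / 2)

/-- `(A - a_j) (A - a_{d-j})` -/
noncomputable def sig (A : Module.End K V) (d : ℕ) (a : ℕ → K) (j : ℕ) : Module.End K V :=
  (A - algebraMap K (Module.End K V) (a j)) * (A - algebraMap K (Module.End K V) (a (d - j)))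

/-- the vector `r_{j-2} q` of `V`, and `0` for `j < 2` -/
def back {L : ℕ → Submodule K V} (r : Fam (fun j => L (j + 2)) L) : ∀ j, L j →ₗ[K] V
  | 0 => 0
  | 1 => 0
  | (j + 2) => (L j).subtype ∘ₗ r j

/-- The formula for `Y` on the strings: for `2 j + s ≤ d` and `q ∈ L_j`,
`Y τ_{j,s} q = τ_{j,s} e_j q + T_{s-1} σ_j τ_{j+1,s-2} e'_j q + T_{s-1} τ_{j+1,s-2} p_j q
  + T_{d+1-2j-s} σ_{j-2} τ_{j-1,s} r_{j-2} q`, where `σ_j = (A - a_j) (A - a_{d-j})`
and the last term only occurs for `j ≥ 2`. -/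
def FormulaY (A : Module.End K V) (d : ℕ) (a : ℕ → K) (β : K) {L : ℕ → Submodule K V}
    (e e' : Fam L L) (p : Fam L (fun j => L (j + 2))) (r : Fam (fun j => L (j + 2)) L)
    (Y : Module.End K V) : Prop :=
  ∀ j s, 2 * j + s ≤ d → ∀ q : L j, Y (tau A a j s q) =
    tau A a j s (ap e j q) + TT β (s - 1) • sig A d a j (tau A a (j + 1) (s - 2) (ap e' j q)) +
    TT β (s - 1) • tau A a (j + 1) (s - 2) (ap p j q) +
    TT β (d + 1 - 2 * j - s) • sig A d a (j - 2) (tau A a (j - 1) s (back r j q))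

/-- `X` is the map with parameters `p`: `X = Y + Λ₀ + A Λ₁ + Λ₂ A`, where `Y` is given by
`e, e', p, r`, and `Λ₀`, `Λ₁`, `Λ₂` are the lowering maps (`Formula`) with parameters `f, g, h`,
`f', g', h'` and `0, g'', h''`. -/
def IsMap (A : Module.End K V) (d : ℕ) (a : ℕ → K) (β : K) {L : ℕ → Submodule K V}
    (p : Params L d) (X : Module.End K V) : Prop :=
  ∃ Y X₀ X₁ X₂ : Module.End K V,
    FormulaY A d a β (ext0 p.e) (ext0 p.e') (ext0 p.p) (ext0 p.r) Y ∧
    Formula A d a β (ext0 p.f) (ext0 p.g) (ext0 p.h) X₀ ∧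
    Formula A d a β (ext0 p.f') (ext0 p.g') (ext0 p.h') X₁ ∧
    Formula A d a β (fun _ => 0) (ext0 p.g'') (ext0 p.h'') X₂ ∧
    X = Y + X₀ + A * X₁ + X₂ * A

/-- Every `p` defines exactly one `X`, and this `X` satisfies the two conditions. -/
def ProducesUpper (A B : Module.End K V) (d : ℕ) (a b : ℕ → K) (β : K) : Prop :=
  ∀ p : Params (Low A B d a b) d,
    (∃! X, IsMap A d a β p X) ∧ ∀ X, IsMap A d a β p X → IsUpper A B d a b X

/-- Every `X` with the two conditions is defined by exactly one `p`. -/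
def ExhaustsUpper (A B : Module.End K V) (d : ℕ) (a b : ℕ → K) (β : K) : Prop :=
  ∀ X, IsUpper A B d a b X → ∃! p : Params (Low A B d a b) d, IsMap A d a β p X

/-- `dim {X} = ∑_{2j≤d} n_j² + 2 ∑_{2j+1≤d} n_j² + ∑_{2j+2≤d} n_j² + 4 ∑_{2j+2≤d} n_j n_{j+1}
  + 2 ∑_{2j+3≤d} n_j n_{j+1} + 2 ∑_{2j+4≤d} n_j n_{j+2}`, `n_j = dim L_j` -/
def DimUpper (A B : Module.End K V) (d : ℕ) (a b : ℕ → K) : Prop :=
  finrank K (Upper A B d a b) =
    ∑ j ∈ Finset.range (d / 2 + 1), finrank K (Low A B d a b j) ^ 2 +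
    2 * ∑ j ∈ Finset.range ((d + 1) / 2), finrank K (Low A B d a b j) ^ 2 +
    ∑ j ∈ Finset.range (d / 2), finrank K (Low A B d a b j) ^ 2 +
    4 * ∑ j ∈ Finset.range (d / 2),
      finrank K (Low A B d a b j) * finrank K (Low A B d a b (j + 1)) +
    2 * ∑ j ∈ Finset.range ((d - 1) / 2),
      finrank K (Low A B d a b j) * finrank K (Low A B d a b (j + 1)) +
    2 * ∑ j ∈ Finset.range ((d - 2) / 2),
      finrank K (Low A B d a b j) * finrank K (Low A B d a b (j + 2))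

variable {A B : Module.End K V} {d : ℕ} {a b : ℕ → K} {P Q : ℕ → Module.End K V}
  {X : Module.End K V}

theorem mem_Upper_iff (iA : Idem A d a P) (iB : Idem B d b Q) (X : Module.End K V) :
    IsUpper A B d a b X ↔ WL d P Q X := by
  constructor
  · rintro ⟨h1, h2⟩
    refine ⟨fun i hi k hk hik v => ?_, fun i hi k hk hik v => ?_⟩
    · have h3 := h1 i hi (Q i v) (by rw [Module.End.mem_eigenspace_iff]; exact iB.eig i hi v)
      rw [mem_iSup_iff iB _ (fun k hk => by omega)] at h3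
      exact h3 k hk (by omega)
    · have h3 := h2 i hi (P i v) (by rw [Module.End.mem_eigenspace_iff]; exact iA.eig i hi v)
      rw [mem_iSup_iff iA _ (fun k hk => hk.1)] at h3
      exact h3 k hk (by omega)
  · rintro ⟨h1, h2⟩
    refine ⟨fun i hi v hv => ?_, fun i hi v hv => ?_⟩
    · rw [Module.End.mem_eigenspace_iff] at hv
      rw [mem_iSup_iff iB _ (fun k hk => by omega)]
      intro k hk hki
      rw [← iB.mem i hi v hv]
      exact h1 i hi k hk (by omega) v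
    · rw [Module.End.mem_eigenspace_iff] at hv
      rw [mem_iSup_iff iA _ (fun k hk => hk.1)]
      intro k hk hki
      rw [← iA.mem i hi v hv]
      exact h2 i hi k hk (by omega) v

theorem sig_eq (A : Module.End K V) (d : ℕ) (a : ℕ → K) (j : ℕ) :
    sig A d a j = aeval A (quad d a j) := by
  rw [quad, map_mul, map_sub, map_sub, aeval_X, aeval_C, aeval_C]
  rfl

theorem formulaY_iff (β : K) (e e' : Fam (LW d P Q) (LW d P Q))
    (p : Fam (LW d P Q) (fun j => LW d P Q (j + 2)))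
    (r : Fam (fun j => LW d P Q (j + 2)) (LW d P Q)) (Y : Module.End K V) :
    FormulaY A d a β e e' p r Y ↔ FY A d a P Q β e e' p r Y := by
  have hb : ∀ j, ∀ q : LW d P Q j, back r j q = rV r j q := by
    intro j q
    rcases j with _ | _ | j <;> rfl
  have hs : ∀ j (g : K[X]) (v : V), sig A d a j (aeval A g v) = aeval A (quad d a j * g) v := by
    intro j g v
    rw [sig_eq, map_mul, Module.End.mul_apply]
  constructor
  · intro h j s hjs q
    have h1 := h j s hjs q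
    unfold tau at h1
    rw [hs, hs, hb] at h1
    exact h1
  · intro h j s hjs q
    have h1 := h j s hjs q
    unfold tau
    rw [hs, hs, hb]
    exact h1

/-- the parameters as a tuple -/
def toU {L : ℕ → Submodule K V} (p : Params L d) : UPar L d :=
  ((p.e, p.e', p.f, p.f'), (p.g, p.g', p.g''), (p.h, p.h', p.h''), (p.p, p.r))

theorem toU_inj {L : ℕ → Submodule K V} {p p' : Params L d} (h : toU p = toU p') : p = p' := by
  obtain ⟨e, e', f, f', g, g', g'', z, z', z'', p, r⟩ := p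
  obtain ⟨_, _, _, _, _, _, _, _, _, _, _, _⟩ := p'
  simp only [toU, Prod.mk.injEq] at h
  obtain ⟨⟨rfl, rfl, rfl, rfl⟩, ⟨rfl, rfl, rfl⟩, ⟨rfl, rfl, rfl⟩, rfl, rfl⟩ := h
  rfl

theorem toU_surj {L : ℕ → Submodule K V} (u : UPar L d) : ∃ p : Params L d, toU p = u := by
  obtain ⟨⟨e, e', f, f'⟩, ⟨g, g', g''⟩, ⟨z, z', z''⟩, ⟨p, r⟩⟩ := u
  exact ⟨⟨e, e', f, f', g, g', g'', z, z', z'', p, r⟩, rfl⟩

theorem isMap_iff (β : K) (p : Params (LW d P Q) d) (X : Module.End K V) :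
    IsMap A d a β p X ↔ IsMapL A d a P Q β (toU p) X := by
  constructor
  · rintro ⟨Y, X0, X1, X2, hY, h0, h1, h2, h3⟩
    exact ⟨Y, X0, X1, X2, (formulaY_iff β _ _ _ _ _).mp hY, (formula_iff β _ _ _).mp h0,
      (formula_iff β _ _ _).mp h1, (formula_iff β _ _ _).mp h2, h3⟩
  · rintro ⟨Y, X0, X1, X2, hY, h0, h1, h2, h3⟩
    exact ⟨Y, X0, X1, X2, (formulaY_iff β _ _ _ _ _).mpr hY, (formula_iff β _ _ _).mpr h0,
      (formula_iff β _ _ _).mpr h1, (formula_iff β _ _ _).mpr h2, h3⟩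

theorem all_maps [FiniteDimensional K V] (h : Sys A B d a P d b Q) (L : ℕ → Submodule K V)
    (hL : L = LW d P Q) (S : Submodule K (Module.End K V)) (hS : ∀ X, X ∈ S ↔ WL d P Q X) (β : K)
    (hrec : Recur d a β) :
    (∀ p : Params L d, (∃! X, IsMap A d a β p X) ∧ ∀ X, IsMap A d a β p X → X ∈ S) ∧
    (∀ X ∈ S, ∃! p : Params L d, IsMap A d a β p X) ∧ finrank K S = finrank K (UPar L d) := by
  subst hL
  obtain ⟨e, he⟩ := exists_equiv h _ rfl S hS β hrec
  have he' : ∀ p : UPar (LW d P Q) d, IsMapL A d a P Q β p (e p : Module.End K V) := he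
  refine ⟨fun p => ⟨⟨e (toU p), (isMap_iff β p _).mpr (he' _), fun X hX =>
    IsMapL.unique h β (toU p) ((isMap_iff β p X).mp hX) (he' _)⟩, fun X hX =>
    (hS X).mpr (((isMap_iff β p X).mp hX).WL h β hrec _)⟩, fun X hX => ?_, e.finrank_eq.symm⟩
  obtain ⟨p, hp⟩ := toU_surj (e.symm ⟨X, hX⟩)
  have h1 : (e (toU p) : Module.End K V) = X := by
    rw [hp, LinearEquiv.apply_symm_apply]
  refine ⟨p, (isMap_iff β p X).mpr (h1 ▸ he' (toU p)), fun p' hp' => toU_inj ?_⟩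
  have h2 := IsMapL.unique h β (toU p') ((isMap_iff β p' X).mp hp') (he' _)
  rw [h2] at h1
  exact e.injective (Subtype.ext h1.symm)

theorem main [FiniteDimensional K V] {A B : Module.End K V} {d : ℕ} {a b : ℕ → K}
    (hA : TDOrdering A B d a) (hB : TDOrdering B A d b) (irred : Irred A B) :
    (∀ β : K, Recur d a β → ProducesUpper A B d a b β ∧ ExhaustsUpper A B d a b β) ∧
      DimUpper A B d a b := by
  have h := TDOrdering.sys hA hB irred
  have hL := Low_eq h.iA h.iB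
  have hS : ∀ X, X ∈ Upper A B d a b ↔ WL d _ _ X := fun X => mem_Upper_iff h.iA h.iB X
  refine ⟨fun β hβ => ?_, ?_⟩
  · obtain ⟨h1, h2, -⟩ := all_maps h _ hL _ hS β hβ
    exact ⟨h1, h2⟩
  · obtain ⟨β, hβ⟩ := rec_a h
    obtain ⟨-, -, h3⟩ := all_maps h _ hL _ hS β hβ
    show finrank K (Upper A B d a b) = _
    rw [h3, UPar_finrank]

end Pool.Agent.U962.TU
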