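import Pool.Agent.U962.TU.Coord

/-! The maps given by parameters and their coordinates. -/

set_option autoImplicit false

namespace Pool.Agent.U962.TU

open Polynomial Module Pool.Agent.Helper9.TD Pool.Agent.R841.TD

variable {K : Type*} [Field K] {V : Type*} [AddCommGroup V] [Module K V]

variable {A B : Module.End K V} {d : ℕ} {a b : ℕ → K} {P Q : ℕ → Module.End K V}
  {X Y X0 X1 X2 : Module.End K V}

theorem quad_str (d : ℕ) (a : ℕ → K) (j s : ℕ) : quad d a j * str a (j + 1) s =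
    str a j (s + 2) + C (a (j + s + 1) - a (d - j)) * str a j (s + 1) := by
  rw [str_succ a j (s + 1), str_succ' a j s, quad, show j + (s + 1) = j + s + 1 by omega, C_sub]
  ring

theorem aeval_quad_str (A : Module.End K V) (d : ℕ) (a : ℕ → K) (j s : ℕ) (y : V) :
    aeval A (quad d a j * str a (j + 1) s) y = aeval A (str a j (s + 2)) y +
      (a (j + s + 1) - a (d - j)) • aeval A (str a j (s + 1)) y := by
  rw [quad_str, map_add, map_mul, LinearMap.add_apply, Module.End.mul_apply, aeval_C,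
    Module.algebraMap_end_apply]

/-- The component lowering the string by two as a map into `V`. -/
def rV (r : ∀ j, LW d P Q (j + 2) →ₗ[K] LW d P Q j) : ∀ j, LW d P Q j →ₗ[K] V
  | 0 => 0
  | 1 => 0
  | (j + 2) => (LW d P Q j).subtype ∘ₗ r j

theorem rV_mem (r : ∀ j, LW d P Q (j + 2) →ₗ[K] LW d P Q j) (j : ℕ) (q : LW d P Q j) :
    rV r j q ∈ LW d P Q (j - 2) := by
  rcases j with _ | _ | j
  · exact Submodule.zero_mem _
  · exact Submodule.zero_mem _
  · exact (r j q).2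

theorem rV_zero (r : ∀ j, LW d P Q (j + 2) →ₗ[K] LW d P Q j) (j : ℕ) (hj : j < 2)
    (q : LW d P Q j) : rV r j q = 0 := by
  rcases j with _ | _ | j
  · rfl
  · rfl
  · omega

/-- The formula for the fourth map on the strings. -/
def FY (A : Module.End K V) (d : ℕ) (a : ℕ → K) (P Q : ℕ → Module.End K V) (β : K)
    (e e2 : ∀ j, LW d P Q j →ₗ[K] LW d P Q j) (p : ∀ j, LW d P Q j →ₗ[K] LW d P Q (j + 2))
    (r : ∀ j, LW d P Q (j + 2) →ₗ[K] LW d P Q j) (Y : Module.End K V) : Prop :=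
  ∀ j s, 2 * j + s ≤ d → ∀ q : LW d P Q j, Y (aeval A (str a j s) (q : V)) =
    aeval A (str a j s) (e j q : V) +
    TT β (s - 1) • aeval A (quad d a j * str a (j + 1) (s - 2)) (e2 j q : V) +
    TT β (s - 1) • aeval A (str a (j + 1) (s - 2)) (p j q : V) +
    TT β (d + 1 - 2 * j - s) • aeval A (quad d a (j - 2) * str a (j - 1) s) (rV r j q)

variable {e e2 f f1 f2 : ∀ j, LW d P Q j →ₗ[K] LW d P Q j}
  {g g1 g2 : ∀ j, LW d P Q j →ₗ[K] LW d P Q (j + 1)}
  {z z1 z2 : ∀ j, LW d P Q (j + 1) →ₗ[K] LW d P Q j}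
  {p : ∀ j, LW d P Q j →ₗ[K] LW d P Q (j + 2)} {r : ∀ j, LW d P Q (j + 2) →ₗ[K] LW d P Q j}

theorem FY.exists (h : Sys A B d a P d b Q) (β : K)
    (e e2 : ∀ j, LW d P Q j →ₗ[K] LW d P Q j) (p : ∀ j, LW d P Q j →ₗ[K] LW d P Q (j + 2))
    (r : ∀ j, LW d P Q (j + 2) →ₗ[K] LW d P Q j) : ∃ Y, FY A d a P Q β e e2 p r Y := by
  obtain ⟨X, hX⟩ := Sys.exists_map h (W := V) (fun j s =>
    (aeval A (str a j s) ∘ₗ (LW d P Q j).subtype ∘ₗ e j) +
    TT β (s - 1) • (aeval A (quad d a j * str a (j + 1) (s - 2)) ∘ₗ (LW d P Q j).subtype ∘ₗ e2 j) +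
    TT β (s - 1) • (aeval A (str a (j + 1) (s - 2)) ∘ₗ (LW d P Q (j + 2)).subtype ∘ₗ p j) +
    TT β (d + 1 - 2 * j - s) • (aeval A (quad d a (j - 2) * str a (j - 1) s) ∘ₗ rV r j))
  exact ⟨X, fun j s hjs q => hX j s hjs q⟩

theorem FY.shape {β : K} (hY : FY A d a P Q β e e2 p r Y) : Shape A d a P Q β Y := by
  intro j hj q hq
  exact ⟨_, (e j ⟨q, hq⟩).2, _, (e2 j ⟨q, hq⟩).2, _, (p j ⟨q, hq⟩).2, _, rV_mem r j ⟨q, hq⟩,
    fun hj2 => rV_zero r j hj2 _, fun s hs => hY j s hs ⟨q, hq⟩⟩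

variable {c : ∀ j : ℕ, ℕ → (V →ₗ[K] LW d P Q j)}

theorem cY (h : Sys A B d a P d b Q) (hc : IsCoord A a c) {β : K}
    (hY : FY A d a P Q β e e2 p r Y) (l t j s : ℕ) (hjs : 2 * j + s ≤ d) (hs2 : s ≤ 2)
    (q : LW d P Q j) :
    (c l t (Y (aeval A (str a j s) (q : V))) : V) =
      (if l = j ∧ t = s then (e j q : V) else 0) +
      ((if l = j ∧ t = 2 ∧ s = 2 then (e2 j q : V) else 0) +
        (if l = j ∧ t = 1 ∧ s = 2 then (a (j + 1) - a (d - j)) • (e2 j q : V) else 0)) +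
      (if l = j + 2 ∧ t = 0 ∧ s = 2 then (p j q : V) else 0) +
      ((if l + 2 = j ∧ t = s + 2 then TT β (d + 1 - 2 * j - s) • rV r j q else 0) +
        (if l + 2 = j ∧ t = s + 1 then TT β (d + 1 - 2 * j - s) •
          ((a (j - 2 + s + 1) - a (d - (j - 2))) • rV r j q) else 0)) := by
  rw [hY j s hjs q, map_add, map_add, map_add, map_smul, map_smul, map_smul, Submodule.coe_add,
    Submodule.coe_add, Submodule.coe_add, Submodule.coe_smul, Submodule.coe_smul,
    Submodule.coe_smul]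
  have hT1 : TT β 1 = 1 := rfl
  have hT0 : TT β 0 = 0 := rfl
  congr 1
  · congr 1
    · congr 1
      · rw [hc l t j s (by omega) _ (e j q).2]
        by_cases hh : l = j ∧ t = s
        · rw [if_pos hh, if_pos (by omega)]
        · rw [if_neg hh, if_neg (by omega)]
      · by_cases hs : s = 2
        · subst hs
          rw [show 2 - 1 = 1 by rfl, show 2 - 2 = 0 by rfl, hT1, one_smul, aeval_quad_str, map_add,
            map_smul, Submodule.coe_add, Submodule.coe_smul, hc l t j (0 + 2) (by omega) _ (e2 j q).2,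
            hc l t j (0 + 1) (by omega) _ (e2 j q).2, show j + 0 + 1 = j + 1 by omega]
          congr 1
          · by_cases hh : l = j ∧ t = 2 ∧ 2 = 2
            · rw [if_pos hh, if_pos (by omega)]
            · rw [if_neg hh, if_neg (by omega)]
          · by_cases hh : l = j ∧ t = 1 ∧ 2 = 2
            · rw [if_pos hh, if_pos (by omega)]
            · rw [if_neg hh, if_neg (by omega), smul_zero]
        · rw [show s - 1 = 0 by omega, hT0, zero_smul, if_neg (by omega), if_neg (by omega),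
            add_zero]
    · by_cases hs : s = 2
      · subst hs
        rw [show 2 - 1 = 1 by rfl, show 2 - 2 = 0 by rfl, hT1, one_smul]
        have e1 : aeval A (str a (j + 1) 0) (p j q : V) = aeval A (str a (j + 2) 0) (p j q : V) := by
          rw [str_zero, str_zero]
        rw [e1]
        by_cases hd : 2 * (j + 2) ≤ d
        · rw [hc l t (j + 2) 0 (by omega) _ (p j q).2]
          by_cases hh : l = j + 2 ∧ t = 0 ∧ 2 = 2
          · rw [if_pos hh, if_pos (by omega)]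
          · rw [if_neg hh, if_neg (by omega)]
        · rw [Sys.LW_big h (j + 2) (by omega) _ (p j q).2, map_zero, map_zero, ite_self]
          rfl
      · rw [show s - 1 = 0 by omega, hT0, zero_smul, if_neg (by omega)]
  · by_cases hj : j < 2
    · rw [rV_zero r j hj, map_zero, map_zero, if_neg (by omega), if_neg (by omega), add_zero]
      exact smul_zero _
    · have e1 : quad d a (j - 2) * str a (j - 1) s = quad d a (j - 2) * str a (j - 2 + 1) s := by
        rw [show j - 2 + 1 = j - 1 by omega]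
      rw [e1, aeval_quad_str, map_add, map_smul, Submodule.coe_add, Submodule.coe_smul,
        hc l t (j - 2) (s + 2) (by omega) _ (rV_mem r j q),
        hc l t (j - 2) (s + 1) (by omega) _ (rV_mem r j q), smul_add]
      congr 1
      · by_cases hh : l + 2 = j ∧ t = s + 2
        · rw [if_pos hh, if_pos (by omega)]
        · rw [if_neg hh, if_neg (by omega), smul_zero]
      · by_cases hh : l + 2 = j ∧ t = s + 1
        · rw [if_pos hh, if_pos (by omega)]
        · rw [if_neg hh, if_neg (by omega), smul_zero, smul_zero]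

theorem cA0 (h : Sys A B d a P d b Q) (hc : IsCoord A a c) (l : ℕ) (hl : 2 * l ≤ d) (v : V) :
    (c l 0 (A v) : V) = a l • (c l 0 v : V) := by
  rw [cA h hc l 0 (by omega) v, if_pos rfl, zero_add, add_zero]

theorem cA1 (h : Sys A B d a P d b Q) (hc : IsCoord A a c) (l t : ℕ) (hl : 2 * l + t + 1 ≤ d)
    (v : V) : (c l (t + 1) (A v) : V) = (c l t v : V) + a (l + (t + 1)) • (c l (t + 1) v : V) := by
  rw [cA h hc l (t + 1) (by omega) v, if_neg (by omega), Nat.add_sub_cancel]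

theorem cL_f (hc : IsCoord A a c) {β : K} (hX : Fml A d a P Q β f g z X) (j s : ℕ)
    (hjs : 2 * j + s + 1 ≤ d) (q : LW d P Q j) :
    (c j s (X (aeval A (str a j (s + 1)) (q : V))) : V) = AA d a j (s + 1) • (f j q : V) := by
  rw [cL hc hX j s j (s + 1) (by omega) q, if_pos (by omega), if_neg (by omega), if_neg (by omega),
    add_zero, add_zero]

theorem cL_g (hc : IsCoord A a c) {β : K} (hX : Fml A d a P Q β f g z X) (j s : ℕ)
    (hjs : 2 * j + s + 2 ≤ d) (q : LW d P Q j) :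
    (c (j + 1) s (X (aeval A (str a j (s + 2)) (q : V))) : V) = TT β (s + 1) • (g j q : V) := by
  rw [cL hc hX (j + 1) s j (s + 2) (by omega) q, if_neg (by omega), if_pos (by omega),
    if_neg (by omega), add_zero, zero_add]
  rfl

theorem cL_z (hc : IsCoord A a c) {β : K} (hX : Fml A d a P Q β f g z X) (j s : ℕ)
    (hjs : 2 * (j + 1) + s ≤ d) (q : LW d P Q (j + 1)) :
    (c j s (X (aeval A (str a (j + 1) s) (q : V))) : V) =
      TT β (d + 1 - 2 * (j + 1) - s) • (z j q : V) := by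
  rw [cL hc hX j s (j + 1) s (by omega) q, if_neg (by omega), if_neg (by omega),
    if_pos (by omega), zero_add, zero_add]
  rfl

theorem cL_0 (hc : IsCoord A a c) {β : K} (hX : Fml A d a P Q β f g z X) (l t j s : ℕ)
    (hjs : 2 * j + s ≤ d) (h1 : ¬ (l = j ∧ t + 1 = s)) (h2 : ¬ (l = j + 1 ∧ t + 2 = s))
    (h3 : ¬ (l + 1 = j ∧ t = s)) (q : LW d P Q j) :
    (c l t (X (aeval A (str a j s) (q : V))) : V) = 0 := by
  rw [cL hc hX l t j s hjs q, if_neg h1, if_neg h2, if_neg h3, add_zero, add_zero]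

theorem cXA (h : Sys A B d a P d b Q) (X : Module.End K V) (l t j s : ℕ) (hjs : 2 * j + s ≤ d)
    (q : V) (hq : q ∈ LW d P Q j) : (c l t (X (A (aeval A (str a j s) q))) : V) =
      (if 2 * j + s + 1 ≤ d then (c l t (X (aeval A (str a j (s + 1)) q)) : V) else 0) +
        a (j + s) • (c l t (X (aeval A (str a j s) q)) : V) := by
  rw [mul_str h X j s hjs q hq, map_add, map_smul, Submodule.coe_add, Submodule.coe_smul]
  congr 1
  split_ifs
  · rfl
  · rw [map_zero]; rfl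

theorem cX (l t : ℕ) (v : V) : (c l t ((Y + X0 + A * X1 + X2 * A) v) : V) =
    (c l t (Y v) : V) + (c l t (X0 v) : V) + (c l t (A (X1 v)) : V) + (c l t (X2 (A v)) : V) := by
  rw [LinearMap.add_apply, LinearMap.add_apply, LinearMap.add_apply, Module.End.mul_apply,
    Module.End.mul_apply, map_add, map_add, map_add, Submodule.coe_add, Submodule.coe_add,
    Submodule.coe_add]

section twelve

variable (h : Sys A B d a P d b Q) (hc : IsCoord A a c) {β : K}
  (hY : FY A d a P Q β e e2 p r Y) (h0 : Fml A d a P Q β f g z X0)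
  (h1 : Fml A d a P Q β f1 g1 z1 X1) (h2 : Fml A d a P Q β (fun _ => 0) g2 z2 X2)

include h hc hY h0 h1 h2

theorem C00 (j : ℕ) (hj : 2 * j ≤ d) (q : LW d P Q j) :
    (c j 0 ((Y + X0 + A * X1 + X2 * A) (aeval A (str a j 0) (q : V))) : V) = (e j q : V) := by
  rw [cX, cY h hc hY j 0 j 0 (by omega) (by omega) q, cL_0 hc h0 j 0 j 0 (by omega) (by omega)
    (by omega) (by omega) q, cA0 h hc j hj, cL_0 hc h1 j 0 j 0 (by omega) (by omega)
    (by omega) (by omega) q, cXA h X2 j 0 j 0 (by omega) q q.2, cL_0 hc h2 j 0 j 0 (by omega)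
    (by omega) (by omega) (by omega) q]
  have e1 : (if 2 * j + 0 + 1 ≤ d then (c j 0 (X2 (aeval A (str a j (0 + 1)) (q : V))) : V)
      else 0) = 0 := by
    split_ifs with hd
    · rw [cL_f hc h2 j 0 (by omega) q]
      exact smul_zero _
    · rfl
  rw [e1]
  simp

theorem C01 (j : ℕ) (hj : 2 * (j + 1) ≤ d) (q : LW d P Q (j + 1)) :
    (c j 1 ((Y + X0 + A * X1 + X2 * A) (aeval A (str a (j + 1) 0) (q : V))) : V) =
      TT β (d + 1 - 2 * (j + 1) - 0) • (z1 j q : V) +
      TT β (d + 1 - 2 * (j + 1) - 1) • (z2 j q : V) := by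
  rw [cX, cY h hc hY j 1 (j + 1) 0 (by omega) (by omega) q, cL_0 hc h0 j 1 (j + 1) 0 (by omega)
    (by omega) (by omega) (by omega) q, cA1 h hc j 0 (by omega), cL_z hc h1 j 0 (by omega) q,
    cL_0 hc h1 j (0 + 1) (j + 1) 0 (by omega) (by omega) (by omega) (by omega) q,
    cXA h X2 j 1 (j + 1) 0 (by omega) q q.2, cL_0 hc h2 j 1 (j + 1) 0 (by omega)
    (by omega) (by omega) (by omega) q]
  have e1 : (if 2 * (j + 1) + 0 + 1 ≤ d then
      (c j 1 (X2 (aeval A (str a (j + 1) (0 + 1)) (q : V))) : V) else 0) =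
      TT β (d + 1 - 2 * (j + 1) - 1) • (z2 j q : V) := by
    split_ifs with hd
    · rw [cL_z hc h2 j (0 + 1) (by omega) q]
    · rw [show d + 1 - 2 * (j + 1) - 1 = 0 by omega]
      exact (zero_smul K _).symm
  rw [e1]
  simp

theorem C02 (j : ℕ) (hj : 2 * (j + 1) ≤ d) (q : LW d P Q (j + 1)) :
    (c j 0 ((Y + X0 + A * X1 + X2 * A) (aeval A (str a (j + 1) 0) (q : V))) : V) =
      TT β (d + 1 - 2 * (j + 1) - 0) • (z j q : V) +
      a j • TT β (d + 1 - 2 * (j + 1) - 0) • (z1 j q : V) +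
      a (j + 1 + 0) • TT β (d + 1 - 2 * (j + 1) - 0) • (z2 j q : V) := by
  rw [cX, cY h hc hY j 0 (j + 1) 0 (by omega) (by omega) q, cL_z hc h0 j 0 (by omega) q,
    cA0 h hc j (by omega), cL_z hc h1 j 0 (by omega) q,
    cXA h X2 j 0 (j + 1) 0 (by omega) q q.2, cL_z hc h2 j 0 (by omega) q]
  have e1 : (if 2 * (j + 1) + 0 + 1 ≤ d then
      (c j 0 (X2 (aeval A (str a (j + 1) (0 + 1)) (q : V))) : V) else 0) = 0 := by
    split_ifs with hd
    · rw [cL_0 hc h2 j 0 (j + 1) (0 + 1) (by omega) (by omega) (by omega) (by omega) q]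
    · rfl
  rw [e1]
  simp

theorem C03 (j : ℕ) (hj : 2 * (j + 2) ≤ d) (q : LW d P Q (j + 2)) :
    (c j 2 ((Y + X0 + A * X1 + X2 * A) (aeval A (str a (j + 2) 0) (q : V))) : V) =
      TT β (d + 1 - 2 * (j + 2) - 0) • (r j q : V) := by
  rw [cX, cY h hc hY j 2 (j + 2) 0 (by omega) (by omega) q, cL_0 hc h0 j 2 (j + 2) 0 (by omega)
    (by omega) (by omega) (by omega) q, cA1 h hc j 1 (by omega),
    cL_0 hc h1 j 1 (j + 2) 0 (by omega) (by omega) (by omega) (by omega) q,
    cL_0 hc h1 j (1 + 1) (j + 2) 0 (by omega) (by omega) (by omega) (by omega) q,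
    cXA h X2 j 2 (j + 2) 0 (by omega) q q.2, cL_0 hc h2 j 2 (j + 2) 0 (by omega)
    (by omega) (by omega) (by omega) q]
  have e1 : (if 2 * (j + 2) + 0 + 1 ≤ d then
      (c j 2 (X2 (aeval A (str a (j + 2) (0 + 1)) (q : V))) : V) else 0) = 0 := by
    split_ifs with hd
    · rw [cL_0 hc h2 j 2 (j + 2) (0 + 1) (by omega) (by omega) (by omega) (by omega) q]
    · rfl
  rw [e1]
  have e2 : rV r (j + 2) q = (r j q : V) := rfl
  rw [e2]
  simp

theorem C10 (j : ℕ) (hj : 2 * j + 2 ≤ d) (q : LW d P Q j) :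
    (c (j + 1) 0 ((Y + X0 + A * X1 + X2 * A) (aeval A (str a j 1) (q : V))) : V) =
      (g2 j q : V) := by
  rw [cX, cY h hc hY (j + 1) 0 j 1 (by omega) (by omega) q, cL_0 hc h0 (j + 1) 0 j 1 (by omega)
    (by omega) (by omega) (by omega) q, cA0 h hc (j + 1) (by omega),
    cL_0 hc h1 (j + 1) 0 j 1 (by omega) (by omega) (by omega) (by omega) q,
    cXA h X2 (j + 1) 0 j 1 (by omega) q q.2, cL_0 hc h2 (j + 1) 0 j 1 (by omega)
    (by omega) (by omega) (by omega) q, if_pos (by omega : 2 * j + 1 + 1 ≤ d),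
    cL_g hc h2 j 0 (by omega) q]
  have hT1 : TT β (0 + 1) = 1 := rfl
  rw [hT1]
  simp

theorem C11 (j : ℕ) (hj : 2 * j + 1 ≤ d) (q : LW d P Q j) :
    (c j 1 ((Y + X0 + A * X1 + X2 * A) (aeval A (str a j 1) (q : V))) : V) =
      (e j q : V) + AA d a j (0 + 1) • (f1 j q : V) := by
  rw [cX, cY h hc hY j 1 j 1 (by omega) (by omega) q, cL_0 hc h0 j 1 j 1 (by omega)
    (by omega) (by omega) (by omega) q, cA1 h hc j 0 (by omega), cL_f hc h1 j 0 (by omega) q,
    cL_0 hc h1 j (0 + 1) j 1 (by omega) (by omega) (by omega) (by omega) q,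
    cXA h X2 j 1 j 1 (by omega) q q.2, cL_0 hc h2 j 1 j 1 (by omega)
    (by omega) (by omega) (by omega) q]
  have e1 : (if 2 * j + 1 + 1 ≤ d then
      (c j 1 (X2 (aeval A (str a j (1 + 1)) (q : V))) : V) else 0) = 0 := by
    split_ifs with hd
    · rw [cL_f hc h2 j 1 (by omega) q]
      exact smul_zero _
    · rfl
  rw [e1]
  simp

theorem C12 (j : ℕ) (hj : 2 * j + 1 ≤ d) (q : LW d P Q j) :
    (c j 0 ((Y + X0 + A * X1 + X2 * A) (aeval A (str a j 1) (q : V))) : V) =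
      AA d a j (0 + 1) • (f j q : V) + a j • AA d a j (0 + 1) • (f1 j q : V) := by
  rw [cX, cY h hc hY j 0 j 1 (by omega) (by omega) q, cL_f hc h0 j 0 (by omega) q,
    cA0 h hc j (by omega), cL_f hc h1 j 0 (by omega) q,
    cXA h X2 j 0 j 1 (by omega) q q.2, cL_f hc h2 j 0 (by omega) q]
  have e1 : (if 2 * j + 1 + 1 ≤ d then
      (c j 0 (X2 (aeval A (str a j (1 + 1)) (q : V))) : V) else 0) = 0 := by
    split_ifs with hd
    · rw [cL_0 hc h2 j 0 j (1 + 1) (by omega) (by omega) (by omega) (by omega) q]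
    · rfl
  rw [e1]
  simp

theorem C13 (j : ℕ) (hj : 2 * (j + 1) + 1 ≤ d) (q : LW d P Q (j + 1)) :
    (c j 2 ((Y + X0 + A * X1 + X2 * A) (aeval A (str a (j + 1) 1) (q : V))) : V) =
      TT β (d + 1 - 2 * (j + 1) - 1) • (z1 j q : V) +
      TT β (d + 1 - 2 * (j + 1) - 2) • (z2 j q : V) := by
  rw [cX, cY h hc hY j 2 (j + 1) 1 (by omega) (by omega) q, cL_0 hc h0 j 2 (j + 1) 1 (by omega)
    (by omega) (by omega) (by omega) q, cA1 h hc j 1 (by omega), cL_z hc h1 j 1 (by omega) q,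
    cL_0 hc h1 j (1 + 1) (j + 1) 1 (by omega) (by omega) (by omega) (by omega) q,
    cXA h X2 j 2 (j + 1) 1 (by omega) q q.2, cL_0 hc h2 j 2 (j + 1) 1 (by omega)
    (by omega) (by omega) (by omega) q]
  have e1 : (if 2 * (j + 1) + 1 + 1 ≤ d then
      (c j 2 (X2 (aeval A (str a (j + 1) (1 + 1)) (q : V))) : V) else 0) =
      TT β (d + 1 - 2 * (j + 1) - 2) • (z2 j q : V) := by
    split_ifs with hd
    · rw [cL_z hc h2 j (1 + 1) (by omega) q]
    · rw [show d + 1 - 2 * (j + 1) - 2 = 0 by omega]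
      exact (zero_smul K _).symm
  rw [e1]
  simp

theorem C20 (j : ℕ) (hj : 2 * j + 4 ≤ d) (q : LW d P Q j) :
    (c (j + 2) 0 ((Y + X0 + A * X1 + X2 * A) (aeval A (str a j 2) (q : V))) : V) =
      (p j q : V) := by
  rw [cX, cY h hc hY (j + 2) 0 j 2 (by omega) (by omega) q, cL_0 hc h0 (j + 2) 0 j 2 (by omega)
    (by omega) (by omega) (by omega) q, cA0 h hc (j + 2) (by omega),
    cL_0 hc h1 (j + 2) 0 j 2 (by omega) (by omega) (by omega) (by omega) q,
    cXA h X2 (j + 2) 0 j 2 (by omega) q q.2, cL_0 hc h2 (j + 2) 0 j 2 (by omega)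
    (by omega) (by omega) (by omega) q, if_pos (by omega : 2 * j + 2 + 1 ≤ d),
    cL_0 hc h2 (j + 2) 0 j (2 + 1) (by omega) (by omega) (by omega) (by omega) q]
  simp

theorem C21 (j : ℕ) (hj : 2 * j + 3 ≤ d) (q : LW d P Q j) :
    (c (j + 1) 1 ((Y + X0 + A * X1 + X2 * A) (aeval A (str a j 2) (q : V))) : V) =
      (g1 j q : V) + TT β 2 • (g2 j q : V) := by
  rw [cX, cY h hc hY (j + 1) 1 j 2 (by omega) (by omega) q, cL_0 hc h0 (j + 1) 1 j 2 (by omega)
    (by omega) (by omega) (by omega) q, cA1 h hc (j + 1) 0 (by omega),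
    cL_g hc h1 j 0 (by omega) q,
    cL_0 hc h1 (j + 1) (0 + 1) j 2 (by omega) (by omega) (by omega) (by omega) q,
    cXA h X2 (j + 1) 1 j 2 (by omega) q q.2, cL_0 hc h2 (j + 1) 1 j 2 (by omega)
    (by omega) (by omega) (by omega) q, if_pos (by omega : 2 * j + 2 + 1 ≤ d),
    cL_g hc h2 j 1 (by omega) q]
  have hT1 : TT β (0 + 1) = 1 := rfl
  rw [hT1]
  simp

theorem C22 (j : ℕ) (hj : 2 * j + 2 ≤ d) (q : LW d P Q j) :
    (c (j + 1) 0 ((Y + X0 + A * X1 + X2 * A) (aeval A (str a j 2) (q : V))) : V) =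
      (g j q : V) + a (j + 1) • (g1 j q : V) + a (j + 2) • (g2 j q : V) := by
  rw [cX, cY h hc hY (j + 1) 0 j 2 (by omega) (by omega) q, cL_g hc h0 j 0 (by omega) q,
    cA0 h hc (j + 1) (by omega), cL_g hc h1 j 0 (by omega) q,
    cXA h X2 (j + 1) 0 j 2 (by omega) q q.2, cL_g hc h2 j 0 (by omega) q]
  have e1 : (if 2 * j + 2 + 1 ≤ d then
      (c (j + 1) 0 (X2 (aeval A (str a j (2 + 1)) (q : V))) : V) else 0) = 0 := by
    split_ifs with hd
    · rw [cL_0 hc h2 (j + 1) 0 j (2 + 1) (by omega) (by omega) (by omega) (by omega) q]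
    · rfl
  have hT1 : TT β (0 + 1) = 1 := rfl
  rw [e1, hT1]
  simp

theorem C23 (j : ℕ) (hj : 2 * j + 2 ≤ d) (q : LW d P Q j) :
    (c j 2 ((Y + X0 + A * X1 + X2 * A) (aeval A (str a j 2) (q : V))) : V) =
      (e j q : V) + (e2 j q : V) + AA d a j (1 + 1) • (f1 j q : V) := by
  rw [cX, cY h hc hY j 2 j 2 (by omega) (by omega) q, cL_0 hc h0 j 2 j 2 (by omega)
    (by omega) (by omega) (by omega) q, cA1 h hc j 1 (by omega), cL_f hc h1 j 1 (by omega) q,
    cL_0 hc h1 j (1 + 1) j 2 (by omega) (by omega) (by omega) (by omega) q,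
    cXA h X2 j 2 j 2 (by omega) q q.2, cL_0 hc h2 j 2 j 2 (by omega)
    (by omega) (by omega) (by omega) q]
  have e1 : (if 2 * j + 2 + 1 ≤ d then
      (c j 2 (X2 (aeval A (str a j (2 + 1)) (q : V))) : V) else 0) = 0 := by
    split_ifs with hd
    · rw [cL_f hc h2 j 2 (by omega) q]
      exact smul_zero _
    · rfl
  rw [e1]
  simp

end twelve

end Pool.Agent.U962.TU
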