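import Pool.Agent.U962.TU.Up

/-! A map of the kind considered is determined by twelve coordinates. -/

set_option autoImplicit false

namespace Pool.Agent.U962.TU

open Polynomial Module Pool.Agent.Helper9.TD Pool.Agent.R841.TD

variable {K : Type*} [Field K] {V : Type*} [AddCommGroup V] [Module K V]

variable {A B : Module.End K V} {d : ℕ} {a b : ℕ → K} {P Q : ℕ → Module.End K V}
  {X : Module.End K V}

theorem eig_zero (h : Sys A B d a P d b Q) (i : ℕ) (hi : i ≤ d) (x : ℕ → V)
    (hx : ∀ j, x j ∈ LW d P Q j)
    (h0 : ∑ j ∈ Finset.range (min i (d - i) + 1), P i (x j) = 0) :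
    ∀ j, j ≤ i → i + j ≤ d → x j = 0 := by
  intro j hji hij
  obtain ⟨q, -, hq⟩ := Pool.Agent.U50.TDA.eig_unique h _ rfl i hi 0 (Submodule.zero_mem _)
  have h1 := hq (fun j => ⟨x j, hx j⟩) (by
    show ∑ j : Fin (min i (d - i) + 1), P i (x j) = 0
    rw [← Finset.sum_range (fun j => P i (x j))]
    exact h0)
  have h2 := hq (fun j => 0) (by simp)
  have h3 := congrFun (h1.trans h2.symm) ⟨j, by omega⟩
  exact congrArg Subtype.val h3

theorem comp_rel (h : Sys A B d a P d b Q) (i : ℕ) (hi : i + 1 ≤ d) (x x' : ℕ → V)
    (hx : ∀ j, x j ∈ LW d P Q j) (hx' : ∀ j, x' j ∈ LW d P Q j) (k : ℕ) (hk : k ≤ d)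
    (hik : i + 1 ≤ k)
    (h0 : P k (∑ j ∈ (Finset.range (i + 1 + 1)).filter (fun j => i + 1 + j ≤ d),
        aeval A (str a j (i + 1 - j)) (x j) +
      ∑ j ∈ (Finset.range (i + 1)).filter (fun j => i + j ≤ d),
        aeval A (str a j (i - j)) (x' j)) = 0) (l : ℕ) (hl : l ≤ i) (hkl : k + l ≤ d) :
    (a k - a i) • x l + x' l = 0 := by
  let z : ℕ → V := fun j => if j ≤ i + 1 then
    (str a j (i + 1 - j)).eval (a k) • x j + (if j ≤ i then (str a j (i - j)).eval (a k) • x' j
      else 0) else 0
  have hz : ∀ j, z j ∈ LW d P Q j := by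
    intro j
    show (if j ≤ i + 1 then (str a j (i + 1 - j)).eval (a k) • x j +
      (if j ≤ i then (str a j (i - j)).eval (a k) • x' j else 0) else 0) ∈ _
    split_ifs
    · exact Submodule.add_mem _ (Submodule.smul_mem _ _ (hx j)) (Submodule.smul_mem _ _ (hx' j))
    · exact Submodule.add_mem _ (Submodule.smul_mem _ _ (hx j)) (Submodule.zero_mem _)
    · exact Submodule.zero_mem _
  have hsum : ∑ j ∈ Finset.range (min k (d - k) + 1), P k (z j) = 0 := by
    rw [← h0, map_add, map_sum, map_sum]
    have e1 : ∑ j ∈ (Finset.range (i + 1 + 1)).filter (fun j => i + 1 + j ≤ d),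
        P k (aeval A (str a j (i + 1 - j)) (x j)) =
        ∑ j ∈ Finset.range (min k (d - k) + 1),
          (if j ≤ i + 1 then P k ((str a j (i + 1 - j)).eval (a k) • x j) else 0) := by
      rw [← Finset.sum_filter]
      symm
      refine Finset.sum_subset_zero_on_sdiff ?_ ?_ ?_
      · intro j hj
        rw [Finset.mem_filter, Finset.mem_range] at hj ⊢
        omega
      · intro j hj
        rw [Finset.mem_sdiff, Finset.mem_filter, Finset.mem_filter, Finset.mem_range,
          Finset.mem_range] at hj
        rw [P_aeval h.iA k hk, LW_P (hx j) k hk (by omega), smul_zero]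
      · intro j hj
        rw [P_aeval h.iA k hk, map_smul]
    have e2 : ∑ j ∈ (Finset.range (i + 1)).filter (fun j => i + j ≤ d),
        P k (aeval A (str a j (i - j)) (x' j)) =
        ∑ j ∈ Finset.range (min k (d - k) + 1),
          (if j ≤ i then P k ((str a j (i - j)).eval (a k) • x' j) else 0) := by
      rw [← Finset.sum_filter]
      symm
      refine Finset.sum_subset_zero_on_sdiff ?_ ?_ ?_
      · intro j hj
        rw [Finset.mem_filter, Finset.mem_range] at hj ⊢
        omega
      · intro j hj
        rw [Finset.mem_sdiff, Finset.mem_filter, Finset.mem_filter, Finset.mem_range,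
          Finset.mem_range] at hj
        rw [P_aeval h.iA k hk, LW_P (hx' j) k hk (by omega), smul_zero]
      · intro j hj
        rw [P_aeval h.iA k hk, map_smul]
    rw [e1, e2, ← Finset.sum_add_distrib]
    refine Finset.sum_congr rfl fun j _ => ?_
    show P k (if j ≤ i + 1 then (str a j (i + 1 - j)).eval (a k) • x j +
      (if j ≤ i then (str a j (i - j)).eval (a k) • x' j else 0) else 0) = _
    split_ifs with h1 h2 h2
    · rw [map_add]
    · rw [map_add, map_zero]
    · omega
    · rw [map_zero, add_zero]
  have h1 := eig_zero h k hk z hz hsum l (by omega) hkl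
  have h2 : z l = (str a l (i + 1 - l)).eval (a k) • x l + (str a l (i - l)).eval (a k) • x' l := by
    show (if l ≤ i + 1 then (str a l (i + 1 - l)).eval (a k) • x l +
      (if l ≤ i then (str a l (i - l)).eval (a k) • x' l else 0) else 0) = _
    rw [if_pos (by omega), if_pos hl]
  rw [h2, show i + 1 - l = i - l + 1 by omega, str_succ, eval_mul, eval_sub, eval_X, eval_C,
    show l + (i - l) = i by omega, mul_smul, ← smul_add] at h1
  rcases smul_eq_zero.mp h1 with h3 | h3
  · exfalso
    rw [str_eval, Finset.prod_eq_zero_iff] at h3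
    obtain ⟨t, ht, h4⟩ := h3
    have ht' := Finset.mem_range.mp ht
    have := h.iA.inj k hk (l + t) (by omega) (sub_eq_zero.mp h4)
    omega
  · exact h3

/-- A vector in the given position with four vanishing coordinates is zero. -/
theorem key_zero (h : Sys A B d a P d b Q) (c : ∀ j : ℕ, ℕ → (V →ₗ[K] LW d P Q j))
    (hc : ∀ j s j' s', 2 * j' + s' ≤ d → ∀ q ∈ LW d P Q j',
      (c j s (aeval A (str a j' s') q) : V) = if j' = j ∧ s' = s then q else 0)
    (i m : ℕ) (hi : i ≤ d) (him : i ≤ m) (hm : m + i ≤ d + 2) (y : V)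
    (hQ : ∀ k ≤ d, i < k → Q k y = 0) (hP : ∀ k ≤ d, k + 1 < i → P k y = 0)
    (hP' : ∀ k ≤ d, m ≤ k → P k y = 0) (hα : 2 ≤ i → (c (i - 2) 2 y : V) = 0)
    (hβ : 1 ≤ i → 2 * i ≤ d + 1 → (c (i - 1) 1 y : V) = 0)
    (hγ : 1 ≤ i → (c (i - 1) 0 y : V) = 0) (hδ : 2 * i ≤ d → (c i 0 y : V) = 0) : y = 0 := by
  rcases i with _ | i
  · obtain ⟨q, hq, hqe⟩ := Sys.gen h 0 hi y (mem_NN.mpr ⟨hQ, fun k _ hk => by omega⟩)
    have e : y = aeval A (str a 0 0) (q 0) := by
      rw [hqe]
      rw [show (Finset.range (0 + 1)).filter (fun j => 0 + j ≤ d) = {0} by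
        ext j; simp only [Finset.mem_filter, Finset.mem_range, Finset.mem_singleton]; omega,
        Finset.sum_singleton]
    have h1 := hδ (by omega)
    rw [e, hc 0 0 0 0 (by omega) (q 0) (hq 0), if_pos ⟨rfl, rfl⟩] at h1
    rw [e, h1, map_zero]
  · obtain ⟨u, w, huw, hu, hw⟩ := Sys.split h i y
    have huN : u ∈ NN d P d Q i i := by
      refine mem_NN.mpr ⟨hu, fun l hl hli => ?_⟩
      have : u = y - w := by rw [huw]; abel
      rw [this, map_sub, hP l hl (by omega), hw l hl (by omega), sub_zero]
    have hwN : w ∈ NN d P d Q (i + 1) (i + 1) := by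
      refine mem_NN.mpr ⟨fun l hl hli => ?_, hw⟩
      have : w = y - u := by rw [huw]; abel
      rw [this, map_sub, hQ l hl hli, hu l hl (by omega), sub_zero]
    obtain ⟨x', hx', hue⟩ := Sys.gen h i (by omega) u huN
    obtain ⟨x, hx, hwe⟩ := Sys.gen h (i + 1) hi w hwN
    have hye : y = ∑ j ∈ (Finset.range (i + 1 + 1)).filter (fun j => i + 1 + j ≤ d),
        aeval A (str a j (i + 1 - j)) (x j) +
      ∑ j ∈ (Finset.range (i + 1)).filter (fun j => i + j ≤ d),
        aeval A (str a j (i - j)) (x' j) := by
      rw [huw, hue, hwe, add_comm]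
    -- the coordinates of `y`
    have hcs : ∀ l t, l + t = i + 1 → 2 * l + t ≤ d → (c l t y : V) = x l := by
      intro l t hlt hltd
      rw [hye, map_add, map_sum, map_sum, Submodule.coe_add, Submodule.coe_sum, Submodule.coe_sum]
      rw [Finset.sum_eq_single l, Finset.sum_eq_zero, add_zero,
        hc l t l (i + 1 - l) (by omega) (x l) (hx l), if_pos ⟨rfl, by omega⟩]
      · intro j hj
        rw [Finset.mem_filter, Finset.mem_range] at hj
        rw [hc l t j (i - j) (by omega) (x' j) (hx' j), if_neg (by omega)]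
      · intro j hj hjl
        rw [Finset.mem_filter, Finset.mem_range] at hj
        rw [hc l t j (i + 1 - j) (by omega) (x j) (hx j), if_neg (by omega)]
      · intro hl
        exfalso
        apply hl
        rw [Finset.mem_filter, Finset.mem_range]
        omega
    have hcs' : ∀ l t, l + t = i → 2 * l + t ≤ d → (c l t y : V) = x' l := by
      intro l t hlt hltd
      rw [hye, map_add, map_sum, map_sum, Submodule.coe_add, Submodule.coe_sum, Submodule.coe_sum]
      rw [Finset.sum_eq_zero, zero_add, Finset.sum_eq_single l,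
        hc l t l (i - l) (by omega) (x' l) (hx' l), if_pos ⟨rfl, by omega⟩]
      · intro j hj hjl
        rw [Finset.mem_filter, Finset.mem_range] at hj
        rw [hc l t j (i - j) (by omega) (x' j) (hx' j), if_neg (by omega)]
      · intro hl
        exfalso
        apply hl
        rw [Finset.mem_filter, Finset.mem_range]
        omega
      · intro j hj
        rw [Finset.mem_filter, Finset.mem_range] at hj
        rw [hc l t j (i + 1 - j) (by omega) (x j) (hx j), if_neg (by omega)]
    have hrel : ∀ k ≤ d, m ≤ k → ∀ l ≤ i, k + l ≤ d → (a k - a i) • x l + x' l = 0 := by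
      intro k hk hmk l hl hkl
      exact comp_rel h i hi x x' hx hx' k hk (by omega) (by rw [← hye]; exact hP' k hk hmk) l hl hkl
    -- all components vanish
    have hzero : ∀ l, l + 2 ≤ i → l + l ≤ d → x l = 0 ∧ x' l = 0 := by
      intro l hl hl2
      have h1 := hrel (d - l) (by omega) (by omega) l (by omega) (by omega)
      have h2 := hrel (d - l - 1) (by omega) (by omega) l (by omega) (by omega)
      have h3 : (a (d - l) - a (d - l - 1)) • x l = 0 := by
        have : (a (d - l) - a (d - l - 1)) • x l =
            ((a (d - l) - a i) • x l + x' l) - ((a (d - l - 1) - a i) • x l + x' l) := by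
          rw [add_sub_add_right_eq_sub, ← sub_smul]
          congr 1
          ring
        rw [this, h1, h2, sub_zero]
      rcases smul_eq_zero.mp h3 with h4 | h4
      · exfalso
        have := h.iA.inj (d - l) (by omega) (d - l - 1) (by omega) (sub_eq_zero.mp h4)
        omega
      · rw [h4, smul_zero, zero_add] at h1
        exact ⟨h4, h1⟩
    have hall : ∀ l, (l ≤ i + 1 → i + 1 + l ≤ d → x l = 0) ∧ (l ≤ i → i + l ≤ d → x' l = 0) := by
      intro l
      by_cases hl1 : l + 2 ≤ i
      · exact ⟨fun _ h2 => (hzero l hl1 (by omega)).1, fun _ h2 => (hzero l hl1 (by omega)).2⟩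
      by_cases hl2 : l + 1 = i
      · have h1 : x l = 0 := by
          rw [← hcs l 2 (by omega) (by omega)]
          have := hα (by omega)
          rwa [show i + 1 - 2 = l by omega] at this
        refine ⟨fun _ _ => h1, fun _ _ => ?_⟩
        have h2 := hrel (d - l) (by omega) (by omega) l (by omega) (by omega)
        rwa [h1, smul_zero, zero_add] at h2
      by_cases hl3 : l = i
      · subst hl3
        refine ⟨fun _ h1 => ?_, fun _ h1 => ?_⟩
        · rw [← hcs l 1 (by omega) (by omega)]
          have := hβ (by omega) (by omega)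
          rwa [show l + 1 - 1 = l by omega] at this
        · rw [← hcs' l 0 (by omega) (by omega)]
          have := hγ (by omega)
          rwa [show l + 1 - 1 = l by omega] at this
      · refine ⟨fun h1 h2 => ?_, fun h1 => by omega⟩
        have h3 : l = i + 1 := by omega
        subst h3
        rw [← hcs (i + 1) 0 (by omega) (by omega)]
        exact hδ (by omega)
    rw [hye, Finset.sum_eq_zero, Finset.sum_eq_zero, add_zero]
    · intro j hj
      rw [Finset.mem_filter, Finset.mem_range] at hj
      rw [(hall j).2 (by omega) hj.2, map_zero]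
    · intro j hj
      rw [Finset.mem_filter, Finset.mem_range] at hj
      rw [(hall j).1 (by omega) hj.2, map_zero]

end Pool.Agent.U962.TU
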