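import Pool.Agent.U50.TDA

/-! Maps preserving the flag of `B` and acting tridiagonally on the eigenspaces of `A`: the
conditions, and maps given by formulas on the strings. -/

set_option autoImplicit false

namespace Pool.Agent.U962.TU

open Polynomial Module Pool.Agent.Helper9.TD Pool.Agent.R841.TD

variable {K : Type*} [Field K] {V : Type*} [AddCommGroup V] [Module K V]

/-- the two conditions on `X`, in terms of the projections onto the eigenspaces -/
structure WL (d : ℕ) (P Q : ℕ → Module.End K V) (X : Module.End K V) : Prop where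
  low : ∀ i ≤ d, ∀ k ≤ d, i < k → ∀ v, Q k (X (Q i v)) = 0
  tri : ∀ i ≤ d, ∀ k ≤ d, (i + 1 < k ∨ k + 1 < i) → ∀ v, P k (X (P i v)) = 0

/-- the conditions on the spaces `U_i` -/
def UU (d : ℕ) (P Q : ℕ → Module.End K V) (X : Module.End K V) : Prop :=
  ∀ i ≤ d, ∀ v ∈ NN d P d Q i i, X v ∈ NN d P d Q i (i - 1)

variable {A B : Module.End K V} {d : ℕ} {a b : ℕ → K} {P Q : ℕ → Module.End K V}
  {X : Module.End K V}

theorem WL.of_SL (hX : SL d P Q X) : WL d P Q X where
  low := fun i hi k hk hik v => hX.low i hi k hk (by omega) v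
  tri := hX.tri

theorem WL.add {X' : Module.End K V} (hX : WL d P Q X) (hX' : WL d P Q X') :
    WL d P Q (X + X') where
  low := fun i hi k hk hik v => by
    rw [LinearMap.add_apply, map_add, hX.low i hi k hk hik, hX'.low i hi k hk hik, add_zero]
  tri := fun i hi k hk hik v => by
    rw [LinearMap.add_apply, map_add, hX.tri i hi k hk hik, hX'.tri i hi k hk hik, add_zero]

theorem WL.mul_left (h : Sys A B d a P d b Q) (hX : SL d P Q X) : WL d P Q (A * X) where
  low := fun i hi k hk hik v => by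
    rw [Module.End.mul_apply]
    rcases i with _ | i
    · have h0 : X (Q 0 v) = 0 := h.iB.eq_zero _ fun l hl => hX.low 0 hi l hl (Nat.zero_le l) v
      rw [h0, map_zero, map_zero]
    · exact up_lemma h.iB h.triB i _ (fun l hl hil => hX.low (i + 1) hi l hl (by omega) v) k hk
        (by omega)
  tri := fun i hi k hk hik v => by
    rw [Module.End.mul_apply, h.iA.comm k hk, hX.tri i hi k hk hik, smul_zero]

theorem WL.mul_right (h : Sys A B d a P d b Q) (hX : SL d P Q X) : WL d P Q (X * A) where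
  low := fun i hi k hk hik v => by
    rw [Module.End.mul_apply]
    refine hX.F h.iB (i + 1) _ (fun l hl hil => ?_) k hk (by omega)
    exact h.triB i hi l hl (by omega) v
  tri := fun i hi k hk hik v => by
    rw [Module.End.mul_apply, h.iA.eig i hi, map_smul, map_smul, hX.tri i hi k hk hik, smul_zero]

theorem WL.F (iB : Idem B d b Q) (hX : WL d P Q X) (i : ℕ) (v : V)
    (hv : ∀ k ≤ d, i < k → Q k v = 0) (k : ℕ) (hk : k ≤ d) (hik : i < k) : Q k (X v) = 0 := by
  rw [← iB.sum v, map_sum, map_sum]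
  refine Finset.sum_eq_zero fun l hl => ?_
  have hl' : l ≤ d := by simpa [Nat.lt_succ_iff] using hl
  by_cases h : i < l
  · rw [hv l hl' h, map_zero, map_zero]
  · exact hX.low l hl' k hk (by omega) v

theorem UU_F (h : Sys A B d a P d b Q) (h1 : UU d P Q X) (i : ℕ) : i ≤ d → ∀ v : V,
    (∀ k ≤ d, i < k → Q k v = 0) → ∀ k ≤ d, i < k → Q k (X v) = 0 := by
  induction i with
  | zero =>
    intro hi v hv
    exact (mem_NN.mp (h1 0 hi v (mem_NN.mpr ⟨hv, fun k _ hk => by omega⟩))).1
  | succ i ih =>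
    intro hi v hv k hk hik
    obtain ⟨u, w, huw, hu, hw⟩ := Sys.split h i v
    have hw' : w ∈ NN d P d Q (i + 1) (i + 1) := by
      refine mem_NN.mpr ⟨fun l hl hil => ?_, hw⟩
      have : w = v - u := by rw [huw]; abel
      rw [this, map_sub, hv l hl hil, hu l hl (by omega), sub_zero]
    rw [huw, map_add, map_add, ih (by omega) u hu k hk (by omega),
      (mem_NN.mp (h1 (i + 1) hi w hw')).1 k hk hik, add_zero]

theorem UU_G (h : Sys A B d a P d b Q) (h1 : UU d P Q X) (n : ℕ) : ∀ i, i + n = d + 1 →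
    ∀ v : V, (∀ k ≤ d, k < i → P k v = 0) → ∀ k ≤ d, k + 1 < i → P k (X v) = 0 := by
  induction n with
  | zero =>
    intro i hi v hv k hk hki
    have : v = 0 := h.iA.eq_zero v fun k hk => hv k hk (by omega)
    rw [this, map_zero, map_zero]
  | succ n ih =>
    intro i hi v hv k hk hki
    obtain ⟨u, w, huw, hu, hw⟩ := Sys.split h i v
    have hu' : u ∈ NN d P d Q i i := by
      refine mem_NN.mpr ⟨hu, fun l hl hil => ?_⟩
      have : u = v - w := by rw [huw]; abel
      rw [this, map_sub, hv l hl hil, hw l hl (by omega), sub_zero]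
    rw [huw, map_add, map_add, (mem_NN.mp (h1 i (by omega) u hu')).2 k hk (by omega),
      ih (i + 1) (by omega) w hw k hk (by omega), add_zero]

theorem WL_of_UU (h : Sys A B d a P d b Q) (h1 : UU d P Q X)
    (h2 : UU d (fun i => P (d - i)) Q X) : WL d P Q X where
  low := fun i hi k hk hik v => by
    refine UU_F h h1 i hi (Q i v) (fun l hl hil => ?_) k hk hik
    rw [h.iB.orth l hl i hi, if_neg (by omega)]
  tri := fun i hi k hk hik v => by
    rcases hik with hik | hik
    · have h3 := UU_G h.revA h2 (i + 1) (d - i) (by omega) (P i v) (fun l hl hli => by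
        show P (d - l) (P i v) = 0
        rw [h.iA.orth (d - l) (by omega) i hi, if_neg (by omega)]) (d - k) (by omega) (by omega)
      have h4 : P (d - (d - k)) (X (P i v)) = 0 := h3
      rwa [Nat.sub_sub_self hk] at h4
    · refine UU_G h h1 (d + 1 - i) i (by omega) (P i v) (fun l hl hli => ?_) k hk hik
      rw [h.iA.orth l hl i hi, if_neg (by omega)]

/-- `(x - a_j) (x - a_{d-j})` -/
noncomputable def quad (d : ℕ) (a : ℕ → K) (j : ℕ) : K[X] :=
  (Polynomial.X - C (a j)) * (Polynomial.X - C (a (d - j)))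

theorem quad_rev (d : ℕ) (a : ℕ → K) (j : ℕ) (hj : j ≤ d) :
    quad d (fun i => a (d - i)) j = quad d a j := by
  show (Polynomial.X - C (a (d - j))) * (Polynomial.X - C (a (d - (d - j)))) =
    (Polynomial.X - C (a j)) * (Polynomial.X - C (a (d - j)))
  rw [Nat.sub_sub_self hj, mul_comm]

theorem NN_mono {i j i' j' : ℕ} (hi : i ≤ i') (hj : j' ≤ j) {v : V} (hv : v ∈ NN d P d Q i j) :
    v ∈ NN d P d Q i' j' :=
  mem_NN.mpr ⟨fun k hk hik => (mem_NN.mp hv).1 k hk (by omega),
    fun k hk hkj => (mem_NN.mp hv).2 k hk (by omega)⟩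

theorem lin_mem (h : Sys A B d a P d b Q) (i j : ℕ) (c : K) (v : V) (hv : v ∈ NN d P d Q i j) :
    aeval A (Polynomial.X - C c) v ∈ NN d P d Q (i + 1) j := by
  have e : aeval A (Polynomial.X - C c) v = A v - c • v := by
    simp only [map_sub, aeval_X, aeval_C, LinearMap.sub_apply, Module.algebraMap_end_apply]
  rw [e]
  rw [mem_NN] at hv ⊢
  refine ⟨fun k hk hik => ?_, fun k hk hkj => ?_⟩
  · rw [map_sub, map_smul, hv.1 k hk (by omega), up_lemma h.iB h.triB i v hv.1 k hk hik, smul_zero,
      sub_zero]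
  · rw [map_sub, map_smul, h.iA.comm k hk, hv.2 k hk hkj, smul_zero, smul_zero, sub_zero]

theorem aeval_mem' (h : Sys A B d a P d b Q) (i j s : ℕ) (v : V) (hv : v ∈ NN d P d Q i j) :
    aeval A (str a j s) v ∈ NN d P d Q (i + s) (j + s) := by
  induction s with
  | zero => rw [str_zero]; simpa using hv
  | succ s ih =>
    rw [str_succ, mul_comm, map_mul, Module.End.mul_apply, ← add_assoc, ← add_assoc]
    have := h.NN_A (i + s) (j + s) _ ih
    simpa [map_sub, aeval_X, aeval_C, LinearMap.sub_apply] using this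

/-- a map of the shape considered here, on the strings -/
def Shape (A : Module.End K V) (d : ℕ) (a : ℕ → K) (P Q : ℕ → Module.End K V) (β : K)
    (X : Module.End K V) : Prop :=
  ∀ j, 2 * j ≤ d → ∀ q ∈ LW d P Q j, ∃ y1 ∈ LW d P Q j, ∃ y2 ∈ LW d P Q j,
    ∃ y3 ∈ LW d P Q (j + 2), ∃ y4 ∈ LW d P Q (j - 2), (j < 2 → y4 = 0) ∧
    ∀ s, 2 * j + s ≤ d → X (aeval A (str a j s) q) = aeval A (str a j s) y1 +
      TT β (s - 1) • aeval A (quad d a j * str a (j + 1) (s - 2)) y2 +
      TT β (s - 1) • aeval A (str a (j + 1) (s - 2)) y3 +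
      TT β (d + 1 - 2 * j - s) • aeval A (quad d a (j - 2) * str a (j - 1) s) y4

theorem Shape.UU (h : Sys A B d a P d b Q) {β : K} (hX : Shape A d a P Q β X) : UU d P Q X := by
  intro i hi v hv
  obtain ⟨q, hq, hqe⟩ := Sys.gen h i hi v hv
  rw [hqe, map_sum]
  refine Submodule.sum_mem _ fun j hj => ?_
  rw [Finset.mem_filter, Finset.mem_range] at hj
  obtain ⟨y1, hy1, y2, hy2, y3, hy3, y4, hy4, h0, hf⟩ := hX j (by omega) (q j) (hq j)
  rw [hf (i - j) (by omega)]
  have hN : ∀ l, ∀ y ∈ LW d P Q l, y ∈ NN d P d Q l l := fun l y hy => (Submodule.mem_inf.mp hy).1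
  refine Submodule.add_mem _ (Submodule.add_mem _ (Submodule.add_mem _ ?_ ?_) ?_) ?_
  · have h2 := Sys.aeval_mem h j (i - j) y1 (hN j y1 hy1)
    rw [show j + (i - j) = i by omega] at h2
    exact NN_mono le_rfl (by omega) h2
  · rcases Nat.lt_or_ge (i - j) 2 with hs | hs
    · have hT : TT β (i - j - 1) = 0 := by rw [show i - j - 1 = 0 by omega]; rfl
      rw [hT, zero_smul]; exact Submodule.zero_mem _
    · refine Submodule.smul_mem _ _ ?_
      have e : quad d a j * str a (j + 1) (i - j - 2) =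
          (Polynomial.X - C (a (d - j))) * str a j (i - j - 1) := by
        obtain ⟨m, hm⟩ : ∃ m, i - j = m + 2 := ⟨i - j - 2, by omega⟩
        rw [hm, show m + 2 - 2 = m by omega, show m + 2 - 1 = m + 1 by omega, str_succ', quad]
        ring
      rw [e, map_mul, Module.End.mul_apply]
      have h2 := Sys.aeval_mem h j (i - j - 1) y2 (hN j y2 hy2)
      have h3 := lin_mem h _ _ (a (d - j)) _ h2
      exact NN_mono (by omega) (by omega) h3
  · rcases Nat.lt_or_ge (i - j) 2 with hs | hs
    · have hT : TT β (i - j - 1) = 0 := by rw [show i - j - 1 = 0 by omega]; rfl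
      rw [hT, zero_smul]; exact Submodule.zero_mem _
    · refine Submodule.smul_mem _ _ ?_
      have h2 := aeval_mem' h (j + 2) (j + 1) (i - j - 2) y3
        (NN_mono le_rfl (by omega) (hN (j + 2) y3 hy3))
      exact NN_mono (by omega) (by omega) h2
  · rcases Nat.lt_or_ge j 2 with hj2 | hj2
    · rw [h0 hj2, map_zero, smul_zero]; exact Submodule.zero_mem _
    · refine Submodule.smul_mem _ _ ?_
      have e : quad d a (j - 2) * str a (j - 1) (i - j) =
          (Polynomial.X - C (a (d - (j - 2)))) * str a (j - 2) (i - j + 1) := by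
        rw [str_succ', quad, show j - 2 + 1 = j - 1 by omega]
        ring
      rw [e, map_mul, Module.End.mul_apply]
      have h2 := Sys.aeval_mem h (j - 2) (i - j + 1) y4 (hN (j - 2) y4 hy4)
      have h3 := lin_mem h _ _ (a (d - (j - 2))) _ h2
      exact NN_mono (by omega) (by omega) h3

theorem Shape.rev (β : K)
    (hrec : ∀ i, i + 3 ≤ d → a i - a (i + 3) = (β + 1) * (a (i + 1) - a (i + 2)))
    (hX : Shape A d a P Q β X) : Shape A d (fun i => a (d - i)) (fun i => P (d - i)) Q β X := by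
  intro j hj q hq
  rw [LW_rev] at hq
  obtain ⟨y1, hy1, y2, hy2, y3, hy3, y4, hy4, hz, hf⟩ := hX j hj q hq
  refine ⟨y1, by rw [LW_rev]; exact hy1, y2, by rw [LW_rev]; exact hy2, y3,
    by rw [LW_rev]; exact hy3, y4, by rw [LW_rev]; exact hy4, hz, fun s hs => ?_⟩
  obtain ⟨D, hD⟩ := poly_D d a β hrec
  obtain ⟨E, hE⟩ : ∃ E : K[X] →ₗ[K] K[X], ∀ s, 2 * j + s ≤ d →
      (TT β (d + 1 - 2 * j - s) • aeval A (quad d a (j - 2) * str a (j - 1) s) y4 =
        aeval A (quad d a (j - 2) * E (str a j s)) y4 ∧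
      TT β (d + 1 - 2 * j - s) • aeval A (quad d a (j - 2) * str (fun i => a (d - i)) (j - 1) s) y4 =
        aeval A (quad d a (j - 2) * E (str (fun i => a (d - i)) j s)) y4) := by
    rcases j with _ | j
    · refine ⟨0, fun s _ => ?_⟩
      rw [hz (by omega)]
      simp
    · obtain ⟨E, hE⟩ := poly_E d a β hrec j (by omega)
      refine ⟨E, fun s hs => ?_⟩
      rw [(hE s hs).1, (hE s hs).2, Nat.add_sub_cancel,
        show d + 1 - 2 * (j + 1) - s = d - 1 - 2 * j - s by omega]
      constructor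
      · rw [show quad d a (j + 1 - 2) * (C (TT β (d - 1 - 2 * j - s)) * str a j s) =
          C (TT β (d - 1 - 2 * j - s)) * (quad d a (j + 1 - 2) * str a j s) by ring, map_mul (aeval A)
          (C (TT β (d - 1 - 2 * j - s))), Module.End.mul_apply, aeval_C,
          Module.algebraMap_end_apply]
      · rw [show quad d a (j + 1 - 2) * (C (TT β (d - 1 - 2 * j - s)) *
            str (fun i => a (d - i)) j s) =
          C (TT β (d - 1 - 2 * j - s)) * (quad d a (j + 1 - 2) * str (fun i => a (d - i)) j s)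
          by ring, map_mul (aeval A) (C (TT β (d - 1 - 2 * j - s))), Module.End.mul_apply,
          aeval_C, Module.algebraMap_end_apply]
  let ev : V → K[X] →ₗ[K] V := fun v => (LinearMap.applyₗ v) ∘ₗ (aeval A).toLinearMap
  have hev : ∀ v p, ev v p = aeval A p v := fun v p => rfl
  let L : K[X] →ₗ[K] V := X ∘ₗ ev q - ev y1 -
    ev y2 ∘ₗ (LinearMap.mulLeft K (quad d a j)) ∘ₗ D - ev y3 ∘ₗ D -
    ev y4 ∘ₗ (LinearMap.mulLeft K (quad d a (j - 2))) ∘ₗ E
  have hL : ∀ p, L p = X (aeval A p q) - aeval A p y1 - aeval A (quad d a j * D p) y2 -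
      aeval A (D p) y3 - aeval A (quad d a (j - 2) * E p) y4 :=
    fun p => rfl
  have hDv : ∀ (c : ℕ → K) t (y : V), D (str c j t) = C (TT β (t - 1)) * str c (j + 1) (t - 2) →
      aeval A (D (str c j t)) y = TT β (t - 1) • aeval A (str c (j + 1) (t - 2)) y ∧
      aeval A (quad d a j * D (str c j t)) y =
        TT β (t - 1) • aeval A (quad d a j * str c (j + 1) (t - 2)) y := by
    intro c t y he
    rw [he]
    constructor
    · rw [map_mul, Module.End.mul_apply, aeval_C, Module.algebraMap_end_apply]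
    · rw [show quad d a j * (C (TT β (t - 1)) * str c (j + 1) (t - 2)) =
        C (TT β (t - 1)) * (quad d a j * str c (j + 1) (t - 2)) by ring,
        map_mul (aeval A) (C (TT β (t - 1))), Module.End.mul_apply, aeval_C,
        Module.algebraMap_end_apply]
  have h0 : ∀ t ≤ d - 2 * j, L (str a j t) = 0 := by
    intro t ht
    rw [hL, hf t (by omega), (hE t (by omega)).1, (hDv a t y2 (hD j t (by omega)).1).2,
      (hDv a t y3 (hD j t (by omega)).1).1]
    abel
  have h1 := lin_zero a j L (d - 2 * j) h0 (str (fun i => a (d - i)) j s)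
    (by rw [str_natDegree]; omega)
  rw [hL, ← (hE s hs).2, (hDv (fun i => a (d - i)) s y2 (hD j s hs).2).2,
    (hDv (fun i => a (d - i)) s y3 (hD j s hs).2).1] at h1
  rw [quad_rev d a j (by omega), quad_rev d a (j - 2) (by omega)]
  rw [sub_sub, sub_sub, sub_sub, sub_eq_zero] at h1
  rw [h1]
  abel

theorem Shape.WL (h : Sys A B d a P d b Q) (β : K)
    (hrec : ∀ i, i + 3 ≤ d → a i - a (i + 3) = (β + 1) * (a (i + 1) - a (i + 2)))
    (hX : Shape A d a P Q β X) : WL d P Q X :=
  WL_of_UU h (hX.UU h) ((hX.rev β hrec).UU h.revA)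

end Pool.Agent.U962.TU
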